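import Pool.Agent.TH197.SymAP.Basic

/-!
# Lower bounds: boxes without balanced weights

The boxes are those of Elsholtz, Klahn and Lipnik. The lemma `dirichlet` is that of
`Pool.Agent.Results.MP_b30443_co.IntervalTypes`.
-/

set_option autoImplicit false
set_option linter.unusedSectionVars false

namespace Pool.Agent.TH197.SymAP

open Finset Equiv

variable {p : ℕ} [hpf : Fact p.Prime]

/-- Dirichlet's theorem: a small nonzero multiple. -/
lemma dirichlet {Q : ℕ} (hQ : 1 ≤ Q) (hQp : Q < p) {y : ZMod p} (hy : y ≠ 0) :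
    ∃ q : ℕ, 1 ≤ q ∧ q ≤ Q ∧ ∃ δ : ℕ, 1 ≤ δ ∧ δ ≤ p / (Q + 1) ∧
      ((q : ZMod p) * y = δ ∨ (q : ZMod p) * y = -(δ : ZMod p)) := by
  have hp0 : (0 : ℝ) < p := by exact_mod_cast hpf.out.pos
  obtain ⟨q, hq0, hqQ, hq⟩ := Real.exists_nat_abs_mul_sub_round_le ((y.val : ℝ) / p) hQ
  set t : ℤ := round ((q : ℝ) * ((y.val : ℝ) / p)) with ht
  set e : ℤ := q * y.val - t * p with he
  have he1 : (q : ZMod p) * y = (e : ZMod p) := by
    rw [he]
    push_cast
    rw [ZMod.natCast_zmod_val, ZMod.natCast_self, mul_zero, sub_zero]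
  have he2 : |(e : ℝ)| ≤ p / (Q + 1) := by
    have h1 : (e : ℝ) = ((q : ℝ) * ((y.val : ℝ) / p) - t) * p := by
      rw [he]
      push_cast
      field_simp
    rw [h1, abs_mul, abs_of_pos hp0]
    calc |(q : ℝ) * ((y.val : ℝ) / p) - t| * p ≤ 1 / (Q + 1) * p :=
          mul_le_mul_of_nonneg_right hq hp0.le
      _ = p / (Q + 1) := by ring
  have he3 : e.natAbs ≤ p / (Q + 1) := by
    rw [Nat.le_div_iff_mul_le (by omega)]
    have h1 : ((e.natAbs : ℕ) : ℝ) = |(e : ℝ)| := by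
      rw [← Int.cast_abs, Int.abs_eq_natAbs]
      simp
    have h2 : ((e.natAbs * (Q + 1) : ℕ) : ℝ) ≤ p := by
      push_cast
      rw [← le_div_iff₀ (by positivity)]
      have h3 : ((e.natAbs : ℕ) : ℝ) ≤ p / (Q + 1) := by rw [h1]; exact he2
      exact_mod_cast h3
    exact_mod_cast h2
  have he4 : e ≠ 0 := by
    intro h0
    rw [h0, Int.cast_zero, mul_eq_zero] at he1
    rcases he1 with h1 | h1
    · rw [ZMod.natCast_eq_zero_iff] at h1
      have := Nat.le_of_dvd hq0 h1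
      omega
    · exact hy h1
  refine ⟨q, hq0, hqQ, e.natAbs, by omega, he3, ?_⟩
  rcases Int.natAbs_eq e with h1 | h1
  · left
    rw [he1]
    conv_lhs => rw [h1]
    exact Int.cast_natCast _
  · right
    rw [he1]
    conv_lhs => rw [h1]
    rw [Int.cast_neg, Int.cast_natCast]

/-- balanced weights pass to homomorphic images -/
lemma marg {G H : Type} [AddCommGroup G] [Fintype G] [DecidableEq G] [AddCommGroup H]
    [DecidableEq H] (k : ℕ) (hk : 1 ≤ k) (w : G × G → ℕ) (φ : G →+ H)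
    (hbal : ∀ i : ℕ, i < k → ∀ s : G, (∑ q : G × G, if q.1 + i • q.2 = s then w q else 0) =
      ∑ q : G × G, if q.1 = s then w q else 0) (i : ℕ) (hi : i < k) (a : H) :
    (∑ q : G × G, if φ (q.1 + i • q.2) = a ∧ φ q.2 ≠ 0 then w q else 0) =
      ∑ q : G × G, if φ q.1 = a ∧ φ q.2 ≠ 0 then w q else 0 := by
  classical
  have h1 : ∀ j : ℕ, j < k → (∑ q : G × G, if φ (q.1 + j • q.2) = a then w q else 0) =
      ∑ s : G, if φ s = a then (∑ q : G × G, if q.1 + j • q.2 = s then w q else 0) else 0 := by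
    intro j hj
    have e1 : ∀ s : G, (if φ s = a then (∑ q : G × G, if q.1 + j • q.2 = s then w q else 0)
        else 0) = ∑ q : G × G, if q.1 + j • q.2 = s then (if φ s = a then w q else 0) else 0 := by
      intro s
      split_ifs with h
      · rfl
      · simp
    rw [Finset.sum_congr rfl (fun s _ => e1 s), Finset.sum_comm]
    apply Finset.sum_congr rfl
    intro q _
    rw [Finset.sum_ite_eq, if_pos (Finset.mem_univ _)]
  have h2 : (∑ q : G × G, if φ (q.1 + i • q.2) = a then w q else 0) =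
      ∑ q : G × G, if φ q.1 = a then w q else 0 := by
    have h0 := h1 0 (by omega)
    simp only [zero_smul, add_zero] at h0
    rw [h1 i hi, h0]
    apply Finset.sum_congr rfl
    intro s _
    rw [hbal i hi s]
  have h3 : ∀ j : ℕ, (∑ q : G × G, if φ (q.1 + j • q.2) = a then w q else 0) =
      (∑ q : G × G, if φ (q.1 + j • q.2) = a ∧ φ q.2 ≠ 0 then w q else 0) +
      ∑ q : G × G, if φ q.1 = a ∧ φ q.2 = 0 then w q else 0 := by
    intro j
    rw [← Finset.sum_add_distrib]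
    apply Finset.sum_congr rfl
    intro q _
    by_cases hq : φ q.2 = 0
    · have e1 : φ (q.1 + j • q.2) = φ q.1 := by
        rw [map_add, map_nsmul, hq, smul_zero, add_zero]
      rw [e1]
      simp [hq]
    · simp [hq]
  have h4 := h3 i
  have h5 := h3 0
  simp only [zero_smul, add_zero] at h5
  rw [h2, h5] at h4
  omega

/-- The box `[0, m)^d ⊆ F_p^d` carries no balanced weight if `m ≤ p - ⌊p / ⌈k/2⌉⌋`. -/
theorem box_unbalanced (k d : ℕ) (hk : 3 ≤ k) (hkp : k ≤ p) :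
    ¬ Balanced k (univ.filter
      (fun x : Fin d → ZMod p => ∀ c, (x c).val < p - p / ((k + 1) / 2))) := by
  classical
  rintro ⟨w, ⟨q₀, hq₀⟩, hsup, hbal⟩
  obtain ⟨Q, hQ⟩ : ∃ Q, (k + 1) / 2 = Q + 1 := ⟨(k + 1) / 2 - 1, by omega⟩
  have hQ1 : 1 ≤ Q := by omega
  have hQk : 2 * Q + 1 ≤ k := by omega
  rw [hQ] at hsup
  set M := p - p / (Q + 1) with hM
  have hdiv : p / (Q + 1) ≤ p := Nat.div_le_self _ _
  obtain ⟨c, hc⟩ : ∃ c, q₀.2 c ≠ 0 := by
    by_contra hcon
    push Not at hcon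
    exact (hsup q₀ hq₀).1 (funext hcon)
  set φ : (Fin d → ZMod p) →+ ZMod p := Pi.evalAddMonoidHom (fun _ : Fin d => ZMod p) c with hφ
  have hφa : ∀ x, φ x = x c := fun x => rfl
  have hm := marg k (by omega) w φ hbal
  set ν : ZMod p → ℕ := fun a => ∑ q : (Fin d → ZMod p) × (Fin d → ZMod p),
    if φ q.1 = a ∧ φ q.2 ≠ 0 then w q else 0 with hν
  have hpos : ∀ i : ℕ, i < k → ∀ q, w q ≠ 0 → φ q.2 ≠ 0 → ν (φ (q.1 + i • q.2)) ≠ 0 := by
    intro i hi q hq hy
    have h1 := hm i hi (φ (q.1 + i • q.2))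
    have h2 : w q ≤ ∑ q' : (Fin d → ZMod p) × (Fin d → ZMod p),
        if φ (q'.1 + i • q'.2) = φ (q.1 + i • q.2) ∧ φ q'.2 ≠ 0 then w q' else 0 := by
      have h3 := Finset.single_le_sum (f := fun q' : (Fin d → ZMod p) × (Fin d → ZMod p) =>
        if φ (q'.1 + i • q'.2) = φ (q.1 + i • q.2) ∧ φ q'.2 ≠ 0 then w q' else 0)
        (fun _ _ => Nat.zero_le _) (Finset.mem_univ q)
      beta_reduce at h3
      rwa [if_pos ⟨rfl, hy⟩] at h3
    rw [h1] at h2
    intro h0
    have h4 : w q ≤ 0 := h2.trans (le_of_eq h0)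
    omega
  have hne : (univ.filter (fun a : ZMod p => ν a ≠ 0)).Nonempty := by
    refine ⟨φ (q₀.1 + 0 • q₀.2), ?_⟩
    rw [Finset.mem_filter]
    exact ⟨Finset.mem_univ _, hpos 0 (by omega) q₀ hq₀ hc⟩
  obtain ⟨a, ha, hmax⟩ := Finset.exists_max_image _ (fun a : ZMod p => a.val) hne
  rw [Finset.mem_filter] at ha
  -- a progression with middle digit `a`
  obtain ⟨q, hq1, hq2, hq3⟩ : ∃ q, w q ≠ 0 ∧ φ q.2 ≠ 0 ∧ φ (q.1 + Q • q.2) = a := by
    by_contra hcon
    push Not at hcon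
    apply ha.2
    rw [hν]
    simp only
    rw [← hm Q (by omega) a]
    apply Finset.sum_eq_zero
    intro q _
    split_ifs with h
    · by_contra h0
      exact hcon q h0 h.2 h.1
    · rfl
  obtain ⟨q', hq'1, hq'Q, δ, hδ1, hδ2, hδ⟩ := dirichlet hQ1 (by omega) hq2
  have haM : a.val < M := by
    have h1 := (hsup q hq1).2 Q (by omega)
    rw [Finset.mem_filter] at h1
    have h2 := h1.2 c
    have h3 : (q.1 + Q • q.2) c = a := hq3
    rwa [h3] at h2
  have hcon : ∀ j : ℕ, j < k → φ (q.1 + j • q.2) = ((a.val + δ : ℕ) : ZMod p) → False := by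
    intro j hj h1
    have h2 := hpos j hj q hq1 hq2
    have h3 := hmax _ (Finset.mem_filter.2 ⟨Finset.mem_univ _, h2⟩)
    rw [h1, ZMod.val_natCast_of_lt (by omega)] at h3
    omega
  rcases hδ with h | h
  · apply hcon (Q + q') (by omega)
    rw [add_smul, ← add_assoc, map_add, hq3, map_nsmul, nsmul_eq_mul, h]
    push_cast
    rw [ZMod.natCast_zmod_val]
  · apply hcon (Q - q') (by omega)
    have h3 : φ (q.1 + Q • q.2) = φ (q.1 + (Q - q') • q.2) + q' • φ q.2 := by
      rw [← map_nsmul, ← map_add, add_assoc, ← add_smul, Nat.sub_add_cancel hq'Q]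
    have h4 : q' • φ q.2 = -(δ : ZMod p) := by rw [nsmul_eq_mul, h]
    rw [hq3, h4] at h3
    push_cast
    rw [ZMod.natCast_zmod_val]
    linear_combination -h3

end Pool.Agent.TH197.SymAP
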