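import Pool.Agent.TH197.SymAP.Large

/-!
# Sets without `k`-term progressions that are symmetric on large classes of coordinates
-/

set_option autoImplicit false
set_option linter.unusedSectionVars false

namespace Pool.Agent.TH197.SymAP

open Finset Equiv

variable {G : Type} [AddCommGroup G] [Fintype G] [DecidableEq G]

/-- If `A` is invariant under the permutations which preserve the classes of `c`, then the
coordinates in classes with at least `T` elements contribute a factor at most `h + ε` each. -/
theorem classes (k h : ℕ) (hk : 1 ≤ k) (h1 : 1 ≤ h) (hG : h ≤ Fintype.card G)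
    (hmax : ∀ V : Finset G, ¬ Balanced k V → V.card ≤ h) {ε : ℝ} (hε : 0 < ε) :
    ∃ T : ℕ, ∀ (n : ℕ) (Y : Type) [Fintype Y] [DecidableEq Y] (c : Fin n → Y)
      (A : Finset (Fin n → G)), APFree k A →
      (∀ i j, c i = c j → ∀ x ∈ A, x ∘ swap i j ∈ A) → ∀ m : ℕ,
      m = (univ.filter fun i => T ≤ (univ.filter fun j => c j = c i).card).card →
      (A.card : ℝ) ≤ ((h : ℝ) + ε) ^ m * (Fintype.card G : ℝ) ^ (n - m) := by
  classical
  obtain ⟨K, hK⟩ := letters_all k h hk hG hmax
  set g := Fintype.card G with hg
  have hhR : (1 : ℝ) ≤ h := by exact_mod_cast h1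
  -- the constants
  set τ : ℝ := min 1 (ε / (3 * h)) with hτdef
  have hτ : 0 < τ := lt_min one_pos (by positivity)
  have hτ1 : τ ≤ 1 := min_le_left _ _
  have hτ2 : h * (3 * τ) ≤ ε := by
    have h2 : τ ≤ ε / (3 * h) := min_le_right _ _
    rw [le_div_iff₀ (by positivity)] at h2
    linarith
  obtain ⟨B, hB1, _, hB⟩ := exists_B g K 0 hτ
  obtain ⟨T, hT⟩ := pow_unbounded_of_one_lt B (show 1 < 1 + τ by linarith)
  refine ⟨T + 1, fun n Y _ _ c A hA hc m hm => ?_⟩
  set N : Y → ℕ := fun y => (univ.filter fun j => c j = y).card with hN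
  have hNcard : ∀ y, Fintype.card {i // c i = y} = N y := fun y => by
    rw [Fintype.card_subtype]
  let S : ∀ y : Y, Finset ({i // c i = y} → G) := fun y =>
    if T + 1 ≤ N y then few {i // c i = y} G K h else univ
  have hScard : ∀ y, ((S y).card : ℝ) ≤ ((h : ℝ) + ε) ^ (if T + 1 ≤ N y then N y else 0) *
      (g : ℝ) ^ (if T + 1 ≤ N y then 0 else N y) := by
    intro y
    by_cases hy : T + 1 ≤ N y
    · have e1 : S y = few {i // c i = y} G K h := if_pos hy
      rw [e1, if_pos hy, if_pos hy, pow_zero, mul_one]
      have h2 := card_few_le (G := G) (P := {i // c i = y}) (K := K) (h := h)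
        (by rw [hNcard]; omega) h1
      rw [hNcard, ← hg] at h2
      have h3 : ((few {i // c i = y} G K h).card : ℝ) ≤
          2 ^ g * (((N y : ℝ) * g) ^ (g * K) * (h : ℝ) ^ N y) := by exact_mod_cast h2
      refine h3.trans ?_
      rw [← mul_assoc]
      calc (2 : ℝ) ^ g * ((N y : ℝ) * g) ^ (g * K) * (h : ℝ) ^ N y
          ≤ B * (1 + τ) ^ N y * (h : ℝ) ^ N y :=
            mul_le_mul_of_nonneg_right (hB _) (by positivity)
        _ ≤ (1 + τ) ^ N y * (1 + τ) ^ N y * (h : ℝ) ^ N y := by
            apply mul_le_mul_of_nonneg_right _ (by positivity)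
            apply mul_le_mul_of_nonneg_right _ (by positivity)
            exact hT.le.trans (pow_le_pow_right₀ (by linarith) (by omega))
        _ = ((h : ℝ) * ((1 + τ) * (1 + τ))) ^ N y := by rw [mul_pow, mul_pow]; ring
        _ ≤ ((h : ℝ) + ε) ^ N y := by
          apply pow_le_pow_left₀ (by positivity)
          have h2 : (1 + τ) * (1 + τ) ≤ 1 + 3 * τ := by nlinarith
          calc (h : ℝ) * ((1 + τ) * (1 + τ)) ≤ h * (1 + 3 * τ) :=
                mul_le_mul_of_nonneg_left h2 (by linarith)
            _ = h + h * (3 * τ) := by ring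
            _ ≤ h + ε := by linarith
    · have e1 : S y = univ := if_neg hy
      rw [e1, if_neg hy, if_neg hy, pow_zero, one_mul, Finset.card_univ, Fintype.card_fun,
        hNcard, ← hg]
      push_cast
      exact le_refl _
  have hle : A.card ≤ (Fintype.piFinset S).card := by
    apply Finset.card_le_card_of_injOn (fun u y i => u i.1)
    · intro u hu
      rw [Finset.mem_coe, Fintype.mem_piFinset]
      intro y
      by_cases hy : T + 1 ≤ N y
      · have e1 : S y = few {i // c i = y} G K h := if_pos hy
        rw [e1, mem_few]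
        obtain ⟨V, hV, hVK⟩ := hK n A (univ.filter fun i => c i = y) hA (by
          intro i hi j hj
          rw [Finset.mem_filter] at hi hj
          exact hc i j (by rw [hi.2, hj.2])) u hu
        refine ⟨V, hV, fun v hv => lt_of_le_of_lt ?_ (hVK v hv)⟩
        apply Finset.card_le_card_of_injOn (fun i => i.1)
        · intro i hi
          have h2 := (Finset.mem_filter.1 (Finset.mem_coe.1 hi)).2
          rw [Finset.mem_coe, Finset.mem_filter, Finset.mem_filter]
          exact ⟨⟨mem_univ _, i.2⟩, h2⟩
        · intro i _ j _ hij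
          exact Subtype.ext hij
      · have e1 : S y = univ := if_neg hy
        rw [e1]
        exact mem_univ _
    · intro u _ u' _ huu
      funext i
      exact congrFun (congrFun huu (c i)) ⟨i, rfl⟩
  have hsum : ∑ y, N y = n := by
    have h2 : ∑ y, Fintype.card {i // c i = y} = n := by
      rw [← Fintype.card_sigma, Fintype.card_congr (Equiv.sigmaFiberEquiv c), Fintype.card_fin]
    rw [← h2]
    exact Finset.sum_congr rfl (fun y _ => (hNcard y).symm)
  have hsum1 : ∑ y, (if T + 1 ≤ N y then N y else 0) = m := by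
    rw [hm]
    have h2 : (univ.filter fun i => T + 1 ≤ (univ.filter fun j => c j = c i).card).card =
        ∑ y, ((univ.filter fun i => T + 1 ≤ (univ.filter fun j => c j = c i).card).filter
          fun i => c i = y).card := Finset.card_eq_sum_card_fiberwise (fun i _ => by simp)
    rw [h2]
    apply Finset.sum_congr rfl
    intro y _
    rw [Finset.filter_filter]
    split_ifs with hy
    · show (univ.filter fun j => c j = y).card = _
      congr 1
      ext j
      simp only [Finset.mem_filter, Finset.mem_univ, true_and]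
      constructor
      · rintro rfl
        exact ⟨hy, rfl⟩
      · exact fun h => h.2
    · symm
      rw [Finset.card_eq_zero, Finset.filter_eq_empty_iff]
      rintro j _ ⟨a1, a2⟩
      subst a2
      exact hy a1
  have hsum2 : ∑ y, (if T + 1 ≤ N y then 0 else N y) = n - m := by
    have h2 : ∑ y, (if T + 1 ≤ N y then N y else 0) + ∑ y, (if T + 1 ≤ N y then 0 else N y) =
        n := by
      rw [← Finset.sum_add_distrib, ← hsum]
      apply Finset.sum_congr rfl
      intro y _
      split_ifs <;> simp
    omega
  calc (A.card : ℝ) ≤ ((Fintype.piFinset S).card : ℝ) := by exact_mod_cast hle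
    _ = ∏ y, ((S y).card : ℝ) := by rw [Fintype.card_piFinset]; push_cast; rfl
    _ ≤ ∏ y, (((h : ℝ) + ε) ^ (if T + 1 ≤ N y then N y else 0) *
      (g : ℝ) ^ (if T + 1 ≤ N y then 0 else N y)) :=
      Finset.prod_le_prod (fun y _ => Nat.cast_nonneg _) (fun y _ => hScard y)
    _ = _ := by
      rw [Finset.prod_mul_distrib, Finset.prod_pow_eq_pow_sum, Finset.prod_pow_eq_pow_sum,
        hsum1, hsum2]

end Pool.Agent.TH197.SymAP
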