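import Pool.Agent.H287R3.RA.APb

/-!
# Symmetric sets without `k`-term progressions and balanced weights

`G` is a finite abelian group. We compare the largest `k`-AP-free subsets of `G^n` that are
invariant under the permutations of the `n` coordinates with the largest subsets of `G` that carry
no balanced weight. The proofs generalise those of `Pool.Agent.H287R3.RA.APb` (`k = 3`).
-/

set_option autoImplicit false
set_option linter.unusedSectionVars false

namespace Pool.Agent.TH197.SymAP

open Finset Equiv

variable {G : Type} [AddCommGroup G] [Fintype G] [DecidableEq G]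

/-- `w` is a balanced weight on the nontrivial `k`-term progressions in `S`: a nonzero function on
the pairs `(a, y)`, supported on those with `y ≠ 0` and `a, a + y, …, a + (k - 1) y ∈ S`, such that
for each `s` the total weight of the progressions whose `i`-th term is `s` does not depend on
`i`. -/
def Balanced (k : ℕ) (S : Finset G) : Prop :=
  ∃ w : G × G → ℕ, (∃ q, w q ≠ 0) ∧
    (∀ q, w q ≠ 0 → q.2 ≠ 0 ∧ ∀ i : ℕ, i < k → q.1 + i • q.2 ∈ S) ∧
    ∀ i : ℕ, i < k → ∀ s : G, (∑ q : G × G, if q.1 + i • q.2 = s then w q else 0) =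
      ∑ q : G × G, if q.1 = s then w q else 0

/-- no nontrivial `k`-term progression -/
def APFree (k : ℕ) {n : ℕ} (A : Finset (Fin n → G)) : Prop :=
  ∀ x y : Fin n → G, (∀ i : ℕ, i < k → x + i • y ∈ A) → y = 0

/-- invariant under permutations of coordinates -/
def Sym {n : ℕ} (A : Finset (Fin n → G)) : Prop :=
  ∀ (σ : Perm (Fin n)), ∀ x ∈ A, (fun i => x (σ i)) ∈ A

theorem letters (k : ℕ) (hk : 1 ≤ k) (V : Finset G) (hV : Balanced k V) : ∃ K : ℕ, ∀ (n : ℕ)
    (A : Finset (Fin n → G)), APFree k A → Sym A → ∀ u ∈ A, ∃ v ∈ V,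
      (univ.filter (fun i => u i = v)).card < K := by
  classical
  obtain ⟨w, ⟨q₀, hq₀⟩, hsup, hbal⟩ := hV
  refine ⟨∑ q, w q, ?_⟩
  intro n A hA hS u hu
  by_contra hcon
  push Not at hcon
  let I := Σ q : G × G, Fin (w q)
  let F : ℕ → I → G := fun j i => i.1.1 + j • i.1.2
  have hw0 : ∀ i : I, w i.1 ≠ 0 := fun i h0 => by
    have := i.2.2
    omega
  have cardF : ∀ j s, Fintype.card {i // F j i = s} =
      ∑ q : G × G, if q.1 + j • q.2 = s then w q else 0 := by
    intro j s
    rw [Fintype.card_subtype, Finset.card_filter, ← Finset.univ_sigma_univ, Finset.sum_sigma]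
    apply Finset.sum_congr rfl
    intro q _
    simp only [F]
    split_ifs <;> simp
  have cardF0 : ∀ s, Fintype.card {i // F 0 i = s} =
      ∑ q : G × G, if q.1 = s then w q else 0 := by
    intro s
    rw [cardF]
    simp
  have hperm : ∀ j : ℕ, j < k → ∃ σ : Perm I, ∀ i, F j i = F 0 (σ i) := by
    intro j hj
    apply H287R3.RA.AP.exists_perm
    intro s
    rw [cardF0, cardF, hbal j hj]
  -- embedding
  have hemb : ∀ v : G, Nonempty ({i // F 0 i = v} ↪ {c : Fin n // u c = v}) := by
    intro v
    rw [Function.Embedding.nonempty_iff_card_le]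
    by_cases hv : v ∈ V
    · rw [cardF0, Fintype.card_subtype]
      refine le_trans ?_ (hcon v hv)
      apply Finset.sum_le_sum
      intro q _
      split_ifs
      · exact le_refl _
      · exact Nat.zero_le _
    · have : IsEmpty {i // F 0 i = v} := by
        refine ⟨fun i => hv ?_⟩
        have h1 := (hsup i.1.1 (hw0 i.1)).2 0 (by omega)
        have h2 : i.1.1.1 + (0 : ℕ) • i.1.1.2 = v := i.2
        rwa [h2] at h1
      rw [Fintype.card_eq_zero]
      exact Nat.zero_le _
  have ev : ∀ v : G, {i // F 0 i = v} ↪ {c : Fin n // u c = v} := fun v => (hemb v).some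
  let e₀ : I → Fin n := fun i => (ev (F 0 i) ⟨i, rfl⟩ : Fin n)
  have he₀ : ∀ (i : I) (v : G) (h : F 0 i = v), e₀ i = (ev v ⟨i, h⟩ : Fin n) := by
    intro i v h
    subst h
    rfl
  have hue : ∀ i, u (e₀ i) = F 0 i := fun i => (ev (F 0 i) ⟨i, rfl⟩).2
  have hinj : Function.Injective e₀ := by
    intro i j hij
    have h1 : F 0 i = F 0 j := by rw [← hue i, ← hue j, hij]
    have h2 := he₀ i (F 0 j) h1
    have h3 := he₀ j (F 0 j) rfl
    rw [h2, h3] at hij
    have h4 := (ev (F 0 j)).injective (Subtype.ext hij)
    exact congrArg Subtype.val h4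
  let e : I ↪ Fin n := ⟨e₀, hinj⟩
  let y : Fin n → G := fun c => if h : ∃ i, e i = c then (h.choose).1.2 else 0
  have hye : ∀ i, y (e i) = i.1.2 := by
    intro i
    have hex : ∃ i', e i' = e i := ⟨i, rfl⟩
    simp only [y]
    rw [dif_pos hex, e.injective hex.choose_spec]
  have hmem : ∀ j : ℕ, j < k → u + j • y ∈ A := by
    intro j hj
    obtain ⟨σ, hσ⟩ := hperm j hj
    have hx := hS (σ.viaEmbedding e) u hu
    have hfun : (fun c => u (σ.viaEmbedding e c)) = u + j • y := by
      funext c
      rw [Pi.add_apply, Pi.smul_apply]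
      by_cases hc : c ∈ Set.range e
      · obtain ⟨i, rfl⟩ := hc
        rw [Equiv.Perm.viaEmbedding_apply, hye]
        have h1 : u (e (σ i)) = F 0 (σ i) := hue (σ i)
        have h2 : u (e i) = F 0 i := hue i
        rw [h1, ← hσ, h2]
        simp [F]
      · rw [Equiv.Perm.viaEmbedding_apply_of_notMem _ _ _ hc]
        have h1 : ¬ ∃ i, e i = c := fun h => hc h
        have h2 : y c = 0 := by
          simp only [y]
          rw [dif_neg h1]
        rw [h2]
        simp
    rw [hfun] at hx
    exact hx
  have h3 := hA u y hmem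
  let i₀ : I := ⟨q₀, ⟨0, Nat.pos_of_ne_zero hq₀⟩⟩
  have h4 := hye i₀
  rw [h3] at h4
  exact (hsup q₀ hq₀).1 h4.symm

theorem card_few {n K h : ℕ} (hn : 1 ≤ n) (hh : 1 ≤ h) (V : Finset G) (hV : V.card = h) :
    (univ.filter (fun u : Fin n → G => ∀ v, v ∉ V →
      (univ.filter (fun i => u i = v)).card < K)).card ≤
      (n * Fintype.card G) ^ (Fintype.card G * K) * h ^ n := by
  classical
  set p := Fintype.card G with hp
  set S := univ.filter (fun u : Fin n → G => ∀ v, v ∉ V →
      (univ.filter (fun i => u i = v)).card < K) with hS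
  have hVne : V.Nonempty := by
    rw [← Finset.card_pos]
    omega
  obtain ⟨v₀, hv₀⟩ := hVne
  let Φ : (Fin (p * K) → Fin n × G) × (Fin n → V) → (Fin n → G) := fun q i =>
    if h : ∃ j, (q.1 j).1 = i then (q.1 h.choose).2 else q.2 i
  have hsub : S ⊆ univ.image Φ := by
    intro u hu
    rw [hS, Finset.mem_filter] at hu
    set T : Finset (Fin n) := univ.filter (fun i => u i ∉ V) with hT
    have hTc : T.card ≤ p * K := by
      have h1 : T ⊆ (univ : Finset G).biUnion
          (fun v => if v ∉ V then univ.filter (fun i => u i = v) else ∅) := by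
        intro i hi
        rw [hT, Finset.mem_filter] at hi
        rw [Finset.mem_biUnion]
        refine ⟨u i, Finset.mem_univ _, ?_⟩
        rw [if_pos hi.2, Finset.mem_filter]
        exact ⟨Finset.mem_univ _, rfl⟩
      calc T.card ≤ _ := Finset.card_le_card h1
        _ ≤ ∑ v : G, (if v ∉ V then univ.filter (fun i => u i = v) else ∅).card :=
          Finset.card_biUnion_le
        _ ≤ ∑ _v : G, K := by
          apply Finset.sum_le_sum
          intro v _
          by_cases hv : v ∉ V
          · rw [if_pos hv]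
            exact (hu.2 v hv).le
          · rw [if_neg hv, Finset.card_empty]
            exact Nat.zero_le _
        _ = p * K := by rw [Finset.sum_const, Finset.card_univ, smul_eq_mul]
    obtain ⟨l, hl⟩ := H287R3.RA.AP.exists_cover hn T hTc
    rw [Finset.mem_image]
    refine ⟨(fun j => (l j, u (l j)), fun i => if h : u i ∈ V then ⟨u i, h⟩ else ⟨v₀, hv₀⟩),
      Finset.mem_univ _, ?_⟩
    funext i
    simp only [Φ]
    by_cases hex : ∃ j, l j = i
    · rw [dif_pos hex, hex.choose_spec]
    · rw [dif_neg hex]
      have hi : u i ∈ V := by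
        by_contra hcon
        exact hex (hl i (by rw [hT, Finset.mem_filter]; exact ⟨Finset.mem_univ _, hcon⟩))
      rw [dif_pos hi]
  calc S.card ≤ _ := Finset.card_le_card hsub
    _ ≤ _ := Finset.card_image_le
    _ = (n * p) ^ (p * K) * h ^ n := by
      rw [Finset.card_univ, Fintype.card_prod, Fintype.card_fun, Fintype.card_fun,
        Fintype.card_prod, Fintype.card_fin, Fintype.card_fin, Fintype.card_coe, hV]

/-- the upper bound -/
theorem upper (k h : ℕ) (hk : 1 ≤ k) (h1 : 1 ≤ h) (hG : h ≤ Fintype.card G)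
    (hmax : ∀ V : Finset G, ¬ Balanced k V → V.card ≤ h) :
    ∃ C : ℕ, ∀ (n : ℕ) (A : Finset (Fin n → G)),
    1 ≤ n → APFree k A → Sym A → A.card ≤ C * n ^ C * h ^ n := by
  classical
  have hK : ∀ V : Finset G, ∃ K : ℕ, Balanced k V → ∀ (n : ℕ)
      (A : Finset (Fin n → G)), APFree k A → Sym A → ∀ u ∈ A, ∃ v ∈ V,
      (univ.filter (fun i => u i = v)).card < K := by
    intro V
    by_cases hV : Balanced k V
    · obtain ⟨K, hK⟩ := letters k hk V hV
      exact ⟨K, fun _ => hK⟩
    · exact ⟨0, fun h => absurd h hV⟩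
  choose K₀ hK₀ using hK
  set K := ∑ V : Finset G, K₀ V with hKdef
  set p := Fintype.card G with hp
  refine ⟨2 ^ p * p ^ (p * K) + p * K, ?_⟩
  intro n A hn hA hS
  have hcover : ∀ u ∈ A, ∃ V ∈ (univ : Finset G).powersetCard h,
      ∀ v, v ∉ V → (univ.filter (fun i => u i = v)).card < K := by
    intro u hu
    set Vu : Finset G := univ.filter (fun v => K ≤ (univ.filter (fun i => u i = v)).card)
      with hVu
    have hVuc : Vu.card ≤ h := by
      apply hmax
      intro hB
      obtain ⟨v, hv, hlt2⟩ := hK₀ Vu hB n A hA hS u hu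
      rw [hVu, Finset.mem_filter] at hv
      have h1 : K₀ Vu ≤ K := Finset.single_le_sum (f := K₀) (fun _ _ => Nat.zero_le _)
        (Finset.mem_univ Vu)
      omega
    obtain ⟨V, hV1, hV2, hV3⟩ := Finset.exists_subsuperset_card_eq (Finset.subset_univ Vu) hVuc
      (by rw [Finset.card_univ]; omega)
    refine ⟨V, by rw [Finset.mem_powersetCard]; exact ⟨hV2, hV3⟩, ?_⟩
    intro v hv
    by_contra hcon
    push Not at hcon
    exact hv (hV1 (by rw [hVu, Finset.mem_filter]; exact ⟨Finset.mem_univ _, hcon⟩))
  have hsub : A ⊆ ((univ : Finset G).powersetCard h).biUnion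
      (fun V => univ.filter (fun u : Fin n → G => ∀ v, v ∉ V →
      (univ.filter (fun i => u i = v)).card < K)) := by
    intro u hu
    obtain ⟨V, hV, hV2⟩ := hcover u hu
    rw [Finset.mem_biUnion]
    exact ⟨V, hV, by rw [Finset.mem_filter]; exact ⟨Finset.mem_univ _, hV2⟩⟩
  have hpc : ((univ : Finset G).powersetCard h).card ≤ 2 ^ p := by
    rw [Finset.card_powersetCard, Finset.card_univ]
    exact Nat.choose_le_two_pow p h
  have h1 : A.card ≤ 2 ^ p * ((n * p) ^ (p * K) * h ^ n) := by
    calc A.card ≤ _ := Finset.card_le_card hsub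
      _ ≤ ∑ V ∈ (univ : Finset G).powersetCard h,
          (univ.filter (fun u : Fin n → G => ∀ v, v ∉ V →
            (univ.filter (fun i => u i = v)).card < K)).card := Finset.card_biUnion_le
      _ ≤ ∑ _V ∈ (univ : Finset G).powersetCard h, (n * p) ^ (p * K) * h ^ n := by
        apply Finset.sum_le_sum
        intro V hV
        rw [Finset.mem_powersetCard] at hV
        exact card_few hn (by omega) V hV.2
      _ ≤ _ := by
        rw [Finset.sum_const, smul_eq_mul]
        exact Nat.mul_le_mul_right _ hpc
  have h2 : n ^ (p * K) ≤ n ^ (2 ^ p * p ^ (p * K) + p * K) :=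
    Nat.pow_le_pow_right hn (Nat.le_add_left _ _)
  calc A.card ≤ 2 ^ p * ((n * p) ^ (p * K) * h ^ n) := h1
    _ = (2 ^ p * p ^ (p * K)) * n ^ (p * K) * h ^ n := by rw [mul_pow]; ring
    _ ≤ (2 ^ p * p ^ (p * K) + p * K) * n ^ (2 ^ p * p ^ (p * K) + p * K) * h ^ n :=
      Nat.mul_le_mul_right _ (Nat.mul_le_mul (Nat.le_add_right _ _) h2)

/-- the lower bound: type classes over an unbalanced set -/
theorem lower (k : ℕ) (hk : 1 ≤ k) (S : Finset G) (hS : ¬ Balanced k S) (n : ℕ) :
    ∃ A : Finset (Fin n → G), APFree k A ∧ Sym A ∧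
      S.card ^ n ≤ (n + 1) ^ Fintype.card G * A.card := by
  classical
  set W : Finset (Fin n → G) := Fintype.piFinset (fun _ => S) with hW
  let τ : (Fin n → G) → (G → Fin (n + 1)) := fun x s =>
    ⟨(univ.filter (fun i => x i = s)).card, by
      have h1 := Finset.card_le_univ (univ.filter (fun i => x i = s))
      rw [Fintype.card_fin] at h1
      omega⟩
  have hWcard : W.card = S.card ^ n := by
    rw [hW, Fintype.card_piFinset]
    simp
  obtain ⟨t, ht⟩ : ∃ t : G → Fin (n + 1),
      S.card ^ n ≤ (n + 1) ^ Fintype.card G * (W.filter (fun x => τ x = t)).card := by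
    by_contra hcon
    push Not at hcon
    have h1 : W.card = ∑ t : G → Fin (n + 1), (W.filter (fun x => τ x = t)).card :=
      Finset.card_eq_sum_card_fiberwise (fun x _ => by simp)
    have h2 : ∑ t : G → Fin (n + 1),
        ((n + 1) ^ Fintype.card G * (W.filter (fun x => τ x = t)).card) <
        ∑ _t : G → Fin (n + 1), S.card ^ n :=
      Finset.sum_lt_sum_of_nonempty Finset.univ_nonempty (fun t _ => hcon t)
    rw [← Finset.mul_sum, ← h1, hWcard, Finset.sum_const, Finset.card_univ, Fintype.card_fun,
      Fintype.card_fin, smul_eq_mul] at h2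
    exact lt_irrefl _ h2
  refine ⟨W.filter (fun x => τ x = t), ?_, ?_, ht⟩
  · intro x y hxy
    by_contra hy
    apply hS
    have hmemS : ∀ i : ℕ, i < k → ∀ c, x c + i • y c ∈ S := by
      intro i hi c
      have h1 := (Finset.mem_filter.1 (hxy i hi)).1
      rw [hW, Fintype.mem_piFinset] at h1
      exact h1 c
    have hcount : ∀ i : ℕ, i < k → ∀ s : G,
        (univ.filter (fun c => x c + i • y c = s)).card =
        (univ.filter (fun c => x c = s)).card := by
      intro i hi s
      have h1 := (Finset.mem_filter.1 (hxy i hi)).2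
      have h0 := (Finset.mem_filter.1 (hxy 0 (by omega))).2
      have h2 : τ (x + i • y) s = τ (x + 0 • y) s := by rw [h1, h0]
      have h3 := congrArg Fin.val h2
      simp only [τ, Pi.add_apply, Pi.smul_apply, zero_smul, Pi.zero_apply, add_zero] at h3
      exact h3
    refine ⟨fun q => (univ.filter (fun c => x c = q.1 ∧ y c = q.2 ∧ y c ≠ 0)).card, ?_, ?_, ?_⟩
    · obtain ⟨c, hc⟩ : ∃ c, y c ≠ 0 := by
        by_contra hcon
        push Not at hcon
        exact hy (funext hcon)
      refine ⟨(x c, y c), ?_⟩
      rw [Finset.card_ne_zero]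
      exact ⟨c, by simp [hc]⟩
    · intro q hq
      rw [Finset.card_ne_zero] at hq
      obtain ⟨c, hc⟩ := hq
      rw [Finset.mem_filter] at hc
      obtain ⟨_, h1, h2, h3⟩ := hc
      refine ⟨h2 ▸ h3, ?_⟩
      intro i hi
      rw [← h1, ← h2]
      exact hmemS i hi c
    · have key : ∀ (i : ℕ) (s : G), (∑ q : G × G, if q.1 + i • q.2 = s then
          (univ.filter (fun c => x c = q.1 ∧ y c = q.2 ∧ y c ≠ 0)).card else 0) =
          (univ.filter (fun c => x c + i • y c = s ∧ y c ≠ 0)).card := by
        intro i s
        have h1 : (univ.filter (fun c => x c + i • y c = s ∧ y c ≠ 0)).card =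
            ∑ q : G × G, ((univ.filter (fun c => x c + i • y c = s ∧ y c ≠ 0)).filter
              (fun c => (x c, y c) = q)).card :=
          Finset.card_eq_sum_card_fiberwise (fun c _ => by simp)
        rw [h1]
        apply Finset.sum_congr rfl
        intro q _
        rw [Finset.filter_filter]
        split_ifs with hq
        · congr 1
          ext c
          simp only [Finset.mem_filter, Finset.mem_univ, true_and]
          constructor
          · rintro ⟨a1, a2, a3⟩
            refine ⟨⟨?_, a3⟩, ?_⟩
            · rw [a1, a2]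
              exact hq
            · rw [a1, a2]
          · rintro ⟨⟨a1, a3⟩, a2⟩
            rw [← a2]
            exact ⟨rfl, rfl, a3⟩
        · symm
          rw [Finset.card_eq_zero, Finset.filter_eq_empty_iff]
          rintro c _ ⟨⟨a1, a3⟩, a2⟩
          apply hq
          rw [← a2]
          exact a1
      have key2 : ∀ i : ℕ, i < k → ∀ s : G,
          (univ.filter (fun c => x c + i • y c = s ∧ y c ≠ 0)).card +
          (univ.filter (fun c => x c = s ∧ y c = 0)).card =
          (univ.filter (fun c => x c + i • y c = s)).card := by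
        intro i hi s
        have h1 := Finset.card_filter_add_card_filter_not (s := univ.filter (fun c => x c + i • y c = s))
          (fun c => y c ≠ 0)
        rw [Finset.filter_filter, Finset.filter_filter] at h1
        rw [← h1]
        congr 2
        ext c
        simp only [Finset.mem_filter, Finset.mem_univ, true_and, not_not]
        constructor
        · rintro ⟨a1, a2⟩
          rw [a2]
          simp [a1]
        · rintro ⟨a1, a2⟩
          rw [a2] at a1
          refine ⟨?_, a2⟩
          simpa using a1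
      intro i hi s
      rw [key i s]
      have h0 := key 0 s
      simp only [zero_smul, add_zero] at h0
      rw [h0]
      have h1 := key2 i hi s
      have h2 := key2 0 (by omega) s
      rw [hcount i hi s] at h1
      simp only [zero_smul, add_zero] at h2
      omega
  · intro σ x hx
    rw [Finset.mem_filter, hW, Fintype.mem_piFinset] at hx ⊢
    refine ⟨fun i => hx.1 (σ i), ?_⟩
    rw [← hx.2]
    funext s
    apply Fin.ext
    simp only [τ]
    apply Finset.card_bij (fun i _ => σ i)
    · intro i hi
      rw [Finset.mem_filter] at hi ⊢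
      exact ⟨Finset.mem_univ _, hi.2⟩
    · intro i _ j _ hij
      exact σ.injective hij
    · intro j hj
      rw [Finset.mem_filter] at hj
      refine ⟨σ.symm j, ?_, by simp⟩
      rw [Finset.mem_filter]
      refine ⟨Finset.mem_univ _, ?_⟩
      rw [Equiv.apply_symm_apply]
      exact hj.2

end Pool.Agent.TH197.SymAP
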