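import Mathlib

set_option autoImplicit false

/-! Gordan's theorem over an ordered field and clearing of denominators.
Both proofs are copied from `Pool.Agent.W13.ND.K2`. -/

namespace Pool.Agent.TH197.SymAP

open Finset

/-- Gordan's theorem over an ordered field. -/
theorem gordan {ι k : Type} [Field k] [LinearOrder k] [IsStrictOrderedRing k] [DecidableEq ι]
    (s : Finset ι) : ∀ (V : Type) [AddCommGroup V] [Module k V] (q : ι → V),
    (∃ φ : V →ₗ[k] k, ∀ i ∈ s, 0 < φ (q i)) ∨
    ∃ l : ι → k, (∀ i ∈ s, 0 ≤ l i) ∧ (∃ i ∈ s, l i ≠ 0) ∧ ∑ i ∈ s, l i • q i = 0 := by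
  induction s using Finset.induction_on with
  | empty => intro V _ _ q; left; exact ⟨0, by simp⟩
  | insert a s ha ih =>
    intro V _ _ q
    by_cases hq : q a = 0
    · right
      refine ⟨fun i => if i = a then 1 else 0, ?_, ⟨a, mem_insert_self _ _, by simp⟩, ?_⟩
      · intro i _; dsimp only; split_ifs <;> norm_num
      · rw [Finset.sum_insert ha]
        simp only [if_true, one_smul, hq, zero_add]
        refine Finset.sum_eq_zero ?_
        intro i hi
        have : i ≠ a := by rintro rfl; exact ha hi
        simp [this]
    rcases ih (V ⧸ Submodule.span k {q a}) (fun i => Submodule.mkQ _ (q i)) with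
      ⟨φ, hφ⟩ | ⟨l, hl0, ⟨i0, hi0, hi0'⟩, hl⟩
    · left
      obtain ⟨ψ, hψ⟩ : ∃ ψ : V →ₗ[k] k, ψ (q a) ≠ 0 := by
        by_contra hcon
        push Not at hcon
        exact hq ((Module.forall_dual_apply_eq_zero_iff k (q a)).1 hcon)
      obtain ⟨ψ, hψ⟩ : ∃ ψ : V →ₗ[k] k, 0 < ψ (q a) := by
        rcases lt_or_gt_of_ne hψ with h | h
        · exact ⟨-ψ, by simpa using h⟩
        · exact ⟨ψ, h⟩
      set π := Submodule.mkQ (Submodule.span k {q a}) with hπ
      set T : k := 1 + ∑ i ∈ s, |ψ (q i)| / φ (π (q i)) with hT
      have hT0 : ∀ i ∈ s, |ψ (q i)| / φ (π (q i)) < T := by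
        intro i hi
        have h1 : |ψ (q i)| / φ (π (q i)) ≤ ∑ i ∈ s, |ψ (q i)| / φ (π (q i)) := by
          refine Finset.single_le_sum (f := fun i => |ψ (q i)| / φ (π (q i))) ?_ hi
          intro j hj
          exact div_nonneg (abs_nonneg _) (hφ j hj).le
        linarith
      refine ⟨T • (φ.comp π) + ψ, ?_⟩
      intro i hi
      rcases mem_insert.1 hi with rfl | hi
      · have h0 : π (q i) = 0 := by
          rw [hπ, Submodule.mkQ_apply, Submodule.Quotient.mk_eq_zero]
          exact Submodule.mem_span_singleton_self _
        simp only [LinearMap.add_apply, LinearMap.smul_apply, LinearMap.comp_apply, h0, map_zero,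
          smul_zero, zero_add]
        exact hψ
      · simp only [LinearMap.add_apply, LinearMap.smul_apply, LinearMap.comp_apply, smul_eq_mul]
        have h1 := (div_lt_iff₀ (hφ i hi)).1 (hT0 i hi)
        have h2 := neg_abs_le (ψ (q i))
        linarith
    · have hmem : ∑ i ∈ s, l i • q i ∈ Submodule.span k {q a} := by
        rw [← Submodule.Quotient.mk_eq_zero, ← Submodule.mkQ_apply, map_sum, ← hl]
        refine Finset.sum_congr rfl ?_
        intro i _
        rw [map_smul]
      obtain ⟨c, hc⟩ := Submodule.mem_span_singleton.1 hmem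
      by_cases hc0 : c ≤ 0
      · right
        refine ⟨fun i => if i = a then -c else l i, ?_, ⟨i0, mem_insert_of_mem hi0, ?_⟩, ?_⟩
        · intro i hi
          dsimp only
          split_ifs with h
          · linarith
          · exact hl0 i ((mem_insert.1 hi).resolve_left h)
        · have : i0 ≠ a := by rintro rfl; exact ha hi0
          simpa [this] using hi0'
        · rw [Finset.sum_insert ha]
          simp only [if_true]
          have : ∑ x ∈ s, (if x = a then -c else l x) • q x = ∑ i ∈ s, l i • q i := by
            refine Finset.sum_congr rfl ?_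
            intro i hi
            have : i ≠ a := by rintro rfl; exact ha hi
            simp [this]
          rw [this, ← hc]
          simp
      · push Not at hc0
        rcases ih V q with ⟨φ, hφ⟩ | ⟨l', hl0', ⟨i1, hi1, hi1'⟩, hl'⟩
        · left
          refine ⟨φ, ?_⟩
          intro i hi
          rcases mem_insert.1 hi with rfl | hi
          · have h1 : c * φ (q i) = ∑ j ∈ s, l j * φ (q j) := by
              have := congrArg φ hc
              rw [map_smul, map_sum] at this
              simpa [smul_eq_mul] using this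
            have h2 : 0 < ∑ j ∈ s, l j * φ (q j) := by
              refine Finset.sum_pos' ?_ ⟨i0, hi0, ?_⟩
              · intro j hj; exact mul_nonneg (hl0 j hj) (hφ j hj).le
              · exact mul_pos (lt_of_le_of_ne (hl0 i0 hi0) (Ne.symm hi0')) (hφ i0 hi0)
            rw [← h1] at h2
            exact (pos_iff_pos_of_mul_pos h2).1 hc0
          · exact hφ i hi
        · right
          refine ⟨fun i => if i = a then 0 else l' i, ?_, ⟨i1, mem_insert_of_mem hi1, ?_⟩, ?_⟩
          · intro i hi
            dsimp only
            split_ifs with h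
            · exact le_refl _
            · exact hl0' i ((mem_insert.1 hi).resolve_left h)
          · have : i1 ≠ a := by rintro rfl; exact ha hi1
            simpa [this] using hi1'
          · rw [Finset.sum_insert ha]
            simp only [if_true, zero_smul, zero_add]
            rw [← hl']
            refine Finset.sum_congr rfl ?_
            intro i hi
            have : i ≠ a := by rintro rfl; exact ha hi
            simp [this]

/-- clearing denominators of nonnegative rational numbers -/
theorem clear {ι : Type} [Fintype ι] (κ : ι → ℚ) (h : ∀ j, 0 ≤ κ j) :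
    ∃ D : ℕ, 0 < D ∧ ∀ E : ℕ, D ∣ E → ∃ n : ι → ℕ, ∀ j, (n j : ℚ) = E * κ j := by
  classical
  refine ⟨∏ j, (κ j).den, Finset.prod_pos fun j _ => (κ j).den_pos, ?_⟩
  intro E hE
  have hd : ∀ j, ∃ n : ℕ, (n : ℚ) = E * κ j := by
    intro j
    obtain ⟨t, ht⟩ := (Finset.dvd_prod_of_mem (fun j => (κ j).den) (mem_univ j)).trans hE
    refine ⟨t * (κ j).num.toNat, ?_⟩
    have h1 : ((κ j).num.toNat : ℚ) = (κ j).num := by
      have : ((κ j).num.toNat : ℤ) = (κ j).num := Int.toNat_of_nonneg (Rat.num_nonneg.2 (h j))
      exact_mod_cast congrArg (fun x : ℤ => (x : ℚ)) this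
    have h2 : κ j * (κ j).den = (κ j).num := Rat.mul_den_eq_num (κ j)
    rw [ht]
    push_cast
    rw [h1, ← h2]
    ring
  choose n hn using hd
  exact ⟨n, hn⟩

end Pool.Agent.TH197.SymAP
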