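import Pool.Agent.TH197.SymAP.Basic
import Pool.Agent.W967.SK.Words
import Pool.Agent.W967.SK.Num2

/-!
# Sets without `k`-term progressions whose symmetric group is large

If the permutations of the coordinates which preserve a `k`-AP-free set `A ⊆ G^n` form a group of
index at most `(n!)^δ`, then all but `o(n)` of the coordinates lie in few large classes on which
`A` is symmetric (`Pool.Agent.W967.SK`), and the method for symmetric sets applies to each class.
-/

set_option autoImplicit false
set_option linter.unusedSectionVars false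

namespace Pool.Agent.TH197.SymAP

open Finset Equiv

variable {G : Type} [AddCommGroup G] [Fintype G] [DecidableEq G]

/-- `letters` for a set `C` of coordinates on which `A` is symmetric -/
theorem letters_on (k : ℕ) (hk : 1 ≤ k) (V : Finset G) (hV : Balanced k V) : ∃ K : ℕ, ∀ (n : ℕ)
    (A : Finset (Fin n → G)) (C : Finset (Fin n)), APFree k A →
    (∀ i ∈ C, ∀ j ∈ C, ∀ x ∈ A, x ∘ swap i j ∈ A) → ∀ u ∈ A, ∃ v ∈ V,
      (C.filter (fun i => u i = v)).card < K := by
  classical
  obtain ⟨K, hK⟩ := letters k hk V hV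
  refine ⟨K, fun n A C hA hC u hu => ?_⟩
  let e : C ≃ Fin C.card := C.equivFin
  let glue : (Fin C.card → G) → (Fin n → G) := fun w i => if h : i ∈ C then w (e ⟨i, h⟩) else u i
  let ext : (Fin C.card → G) → (Fin n → G) := fun w i => if h : i ∈ C then w (e ⟨i, h⟩) else 0
  let A' : Finset (Fin C.card → G) := univ.filter (fun w => glue w ∈ A)
  have hmem : ∀ w, w ∈ A' ↔ glue w ∈ A := fun w => by simp [A']
  have hfree : APFree k A' := by
    intro x y hxy
    have h1 : ext y = 0 := by
      refine hA (glue x) (ext y) (fun i hi => ?_)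
      have h2 := (hmem _).1 (hxy i hi)
      have h3 : glue (x + i • y) = glue x + i • ext y := by
        funext c
        simp only [glue, ext, Pi.add_apply, Pi.smul_apply]
        by_cases hc : c ∈ C
        · simp [hc]
        · simp [hc]
      rwa [h3] at h2
    funext a
    have h2 := congrFun h1 (e.symm a)
    simp only [ext, Pi.zero_apply] at h2
    rw [dif_pos (e.symm a).2] at h2
    simpa using h2
  have hswap : ∀ a b : Fin C.card, ∀ w ∈ A', w ∘ swap a b ∈ A' := by
    intro a b w hw
    rw [hmem] at hw ⊢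
    have h1 := hC _ (e.symm a).2 _ (e.symm b).2 _ hw
    have h2 : glue (w ∘ swap a b) = glue w ∘ swap (e.symm a : Fin n) (e.symm b) := by
      funext c
      by_cases hc : c ∈ C
      · obtain ⟨z, hz⟩ : ∃ z, (e.symm z : Fin n) = c := ⟨e ⟨c, hc⟩, by simp⟩
        subst hz
        have h3 : swap (e.symm a : Fin n) (e.symm b) (e.symm z) = (e.symm (swap a b z) : Fin n) := by
          by_cases h4 : z = a
          · subst h4; rw [swap_apply_left, swap_apply_left]
          by_cases h5 : z = b
          · subst h5; rw [swap_apply_right, swap_apply_right]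
          rw [swap_apply_of_ne_of_ne h4 h5, swap_apply_of_ne_of_ne]
          · intro h; exact h4 (e.symm.injective (Subtype.ext h))
          · intro h; exact h5 (e.symm.injective (Subtype.ext h))
        rw [Function.comp_apply, h3]
        simp only [glue]
        rw [dif_pos (e.symm z).2, dif_pos (e.symm (swap a b z)).2]
        simp
      · have h3 : swap (e.symm a : Fin n) (e.symm b) c = c := by
          apply swap_apply_of_ne_of_ne
          · intro h; exact hc (h ▸ (e.symm a).2)
          · intro h; exact hc (h ▸ (e.symm b).2)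
        rw [Function.comp_apply, h3]
        simp only [glue]
        rw [dif_neg hc, dif_neg hc]
    rw [h2]
    exact h1
  have hsym : Sym A' := by
    intro σ
    induction σ using Equiv.Perm.swap_induction_on with
    | one => intro x hx; exact hx
    | swap_mul f a b _ ih =>
      intro x hx
      exact ih _ (hswap a b x hx)
  have hu' : (fun a => u (e.symm a)) ∈ A' := by
    rw [hmem]
    have : glue (fun a => u (e.symm a)) = u := by
      funext c
      simp only [glue]
      by_cases hc : c ∈ C
      · simp [hc]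
      · simp [hc]
    rw [this]
    exact hu
  obtain ⟨v, hv, hlt⟩ := hK _ A' hfree hsym _ hu'
  refine ⟨v, hv, lt_of_eq_of_lt ?_ hlt⟩
  symm
  apply Finset.card_bij (fun a _ => (e.symm a : Fin n))
  · intro a ha
    rw [Finset.mem_filter] at ha ⊢
    exact ⟨(e.symm a).2, ha.2⟩
  · intro a _ b _ hab
    exact e.symm.injective (Subtype.ext hab)
  · intro c hc
    rw [Finset.mem_filter] at hc
    refine ⟨e ⟨c, hc.1⟩, ?_, by simp⟩
    rw [Finset.mem_filter]
    exact ⟨mem_univ _, by simpa using hc.2⟩

/-- a common constant for all the balanced sets -/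
theorem letters_all (k h : ℕ) (hk : 1 ≤ k) (hG : h ≤ Fintype.card G)
    (hmax : ∀ V : Finset G, ¬ Balanced k V → V.card ≤ h) : ∃ K : ℕ, ∀ (n : ℕ)
    (A : Finset (Fin n → G)) (C : Finset (Fin n)), APFree k A →
    (∀ i ∈ C, ∀ j ∈ C, ∀ x ∈ A, x ∘ swap i j ∈ A) → ∀ u ∈ A, ∃ V : Finset G, V.card = h ∧
      ∀ v, v ∉ V → (C.filter (fun i => u i = v)).card < K := by
  classical
  have hK : ∀ V : Finset G, ∃ K : ℕ, Balanced k V → ∀ (n : ℕ)
      (A : Finset (Fin n → G)) (C : Finset (Fin n)), APFree k A →
      (∀ i ∈ C, ∀ j ∈ C, ∀ x ∈ A, x ∘ swap i j ∈ A) → ∀ u ∈ A, ∃ v ∈ V,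
      (C.filter (fun i => u i = v)).card < K := by
    intro V
    by_cases hV : Balanced k V
    · obtain ⟨K, hK⟩ := letters_on k hk V hV
      exact ⟨K, fun _ => hK⟩
    · exact ⟨0, fun h => absurd h hV⟩
  choose K₀ hK₀ using hK
  refine ⟨∑ V : Finset G, K₀ V, fun n A C hA hC u hu => ?_⟩
  set K := ∑ V : Finset G, K₀ V with hKdef
  set Vu : Finset G := univ.filter (fun v => K ≤ (C.filter (fun i => u i = v)).card) with hVu
  have hVuc : Vu.card ≤ h := by
    apply hmax
    intro hB
    obtain ⟨v, hv, hlt2⟩ := hK₀ Vu hB n A C hA hC u hu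
    rw [hVu, Finset.mem_filter] at hv
    have h1 : K₀ Vu ≤ K := Finset.single_le_sum (f := K₀) (fun _ _ => Nat.zero_le _)
      (Finset.mem_univ Vu)
    omega
  obtain ⟨V, hV1, hV2, hV3⟩ := Finset.exists_subsuperset_card_eq (Finset.subset_univ Vu) hVuc
    (by rw [Finset.card_univ]; omega)
  refine ⟨V, hV3, ?_⟩
  intro v hv
  by_contra hcon
  push Not at hcon
  exact hv (hV1 (by rw [hVu, Finset.mem_filter]; exact ⟨Finset.mem_univ _, hcon⟩))

open Classical in
/-- the words on `P` with few letters outside a set of size `h` -/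
noncomputable def few (P : Type) [Fintype P] (G : Type) [Fintype G] [DecidableEq G] (K h : ℕ) :
    Finset (P → G) :=
  univ.filter (fun w => ∃ V : Finset G, V.card = h ∧
    ∀ v, v ∉ V → (univ.filter (fun i => w i = v)).card < K)

theorem mem_few {P : Type} [Fintype P] {K h : ℕ} {w : P → G} : w ∈ few P G K h ↔
    ∃ V : Finset G, V.card = h ∧ ∀ v, v ∉ V → (univ.filter (fun i => w i = v)).card < K := by
  classical
  unfold few
  simp only [Finset.mem_filter, Finset.mem_univ, true_and]

theorem card_few_le {P : Type} [Fintype P] {K h : ℕ} (hP : 1 ≤ Fintype.card P) (h1 : 1 ≤ h) :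
    (few P G K h).card ≤ 2 ^ Fintype.card G *
      ((Fintype.card P * Fintype.card G) ^ (Fintype.card G * K) * h ^ Fintype.card P) := by
  classical
  set m := Fintype.card P with hm
  let e : P ≃ Fin m := Fintype.equivFin P
  have hpc : ((univ : Finset G).powersetCard h).card ≤ 2 ^ Fintype.card G := by
    rw [Finset.card_powersetCard, Finset.card_univ]
    exact Nat.choose_le_two_pow _ h
  have hle : (few P G K h).card ≤ (((univ : Finset G).powersetCard h).biUnion
      (fun V => univ.filter (fun u : Fin m → G => ∀ v, v ∉ V →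
      (univ.filter (fun i => u i = v)).card < K))).card := by
    apply Finset.card_le_card_of_injOn (fun w a => w (e.symm a))
    · intro w hw
      rw [few, Finset.mem_coe, Finset.mem_filter] at hw
      obtain ⟨_, V, hV, hw⟩ := hw
      rw [Finset.mem_coe, Finset.mem_biUnion]
      refine ⟨V, by rw [Finset.mem_powersetCard]; exact ⟨subset_univ _, hV⟩, ?_⟩
      rw [Finset.mem_filter]
      refine ⟨mem_univ _, fun v hv => lt_of_le_of_lt ?_ (hw v hv)⟩
      apply Finset.card_le_card_of_injOn (fun a => e.symm a)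
      · intro a ha
        have h2 := (Finset.mem_filter.1 (Finset.mem_coe.1 ha)).2
        simpa using h2
      · intro a _ b _ hab
        exact e.symm.injective hab
    · intro w _ w' _ hww
      funext i
      have h2 := congrFun hww (e i)
      simpa using h2
  refine hle.trans ?_
  calc _ ≤ ∑ V ∈ (univ : Finset G).powersetCard h,
        (univ.filter (fun u : Fin m → G => ∀ v, v ∉ V →
          (univ.filter (fun i => u i = v)).card < K)).card := Finset.card_biUnion_le
    _ ≤ ∑ _V ∈ (univ : Finset G).powersetCard h,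
        (m * Fintype.card G) ^ (Fintype.card G * K) * h ^ m := by
      apply Finset.sum_le_sum
      intro V hV
      rw [Finset.mem_powersetCard] at hV
      exact card_few hP h1 V hV.2
    _ ≤ _ := by
      rw [Finset.sum_const, smul_eq_mul]
      exact Nat.mul_le_mul_right _ hpc

/-- a bound for the polynomial factors -/
theorem exists_B (g K T : ℕ) {τ : ℝ} (hτ : 0 < τ) : ∃ B : ℝ, 1 ≤ B ∧ (g : ℝ) ^ T ≤ B ∧
    ∀ m : ℕ, (2 : ℝ) ^ g * ((m : ℝ) * g) ^ (g * K) ≤ B * (1 + τ) ^ m := by
  obtain ⟨b, hb⟩ := (tendsto_pow_const_div_const_pow_of_one_lt (g * K)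
    (show 1 < 1 + τ by linarith)).bddAbove_range
  have hb' : ∀ m : ℕ, (m : ℝ) ^ (g * K) / (1 + τ) ^ m ≤ |b| := fun m =>
    (hb ⟨m, rfl⟩).trans (le_abs_self b)
  have hg : (0 : ℝ) ≤ (g : ℝ) ^ T := by positivity
  have hq : (0 : ℝ) ≤ 2 ^ g * (g : ℝ) ^ (g * K) * |b| := by positivity
  refine ⟨1 + (g : ℝ) ^ T + 2 ^ g * (g : ℝ) ^ (g * K) * |b|, by linarith, by linarith, ?_⟩
  intro m
  have hp : (0 : ℝ) < (1 + τ) ^ m := by positivity
  have h1 := hb' m
  rw [div_le_iff₀ hp] at h1
  calc (2 : ℝ) ^ g * ((m : ℝ) * g) ^ (g * K) = 2 ^ g * (g : ℝ) ^ (g * K) * (m : ℝ) ^ (g * K) := by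
        rw [mul_pow]; ring
    _ ≤ 2 ^ g * (g : ℝ) ^ (g * K) * (|b| * (1 + τ) ^ m) :=
        mul_le_mul_of_nonneg_left h1 (by positivity)
    _ = 2 ^ g * (g : ℝ) ^ (g * K) * |b| * (1 + τ) ^ m := by ring
    _ ≤ _ := mul_le_mul_of_nonneg_right (by linarith) hp.le

open Pool.Agent.W967.SK in
/-- Sets without `k`-term progressions whose stabilizer in `S_n` has small index. -/
theorem large (k h : ℕ) (hk : 1 ≤ k) (h1 : 1 ≤ h) (hG : h ≤ Fintype.card G)
    (hmax : ∀ V : Finset G, ¬ Balanced k V → V.card ≤ h) {ε : ℝ} (hε : 0 < ε) :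
    ∃ δ : ℝ, 0 < δ ∧ ∃ n₀ : ℕ, ∀ n : ℕ, n₀ ≤ n →
      ∀ (A : Finset (Fin n → G)) (H : Subgroup (Perm (Fin n))),
      APFree k A → (∀ σ ∈ H, ∀ x ∈ A, (fun i => x (σ i)) ∈ A) →
      (H.index : ℝ) ≤ (n.factorial : ℝ) ^ δ → (A.card : ℝ) ≤ ((h : ℝ) + ε) ^ n := by
  classical
  obtain ⟨K, hK⟩ := letters_all k h hk hG hmax
  set g := Fintype.card G with hg
  have hhR : (1 : ℝ) ≤ h := by exact_mod_cast h1
  -- the constants
  set τ : ℝ := min 1 (ε / (3 * h)) with hτdef
  have hτ : 0 < τ := lt_min one_pos (by positivity)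
  have hτ1 : τ ≤ 1 := min_le_left _ _
  have hτ2 : h * (3 * τ) ≤ ε := by
    have h2 : τ ≤ ε / (3 * h) := min_le_right _ _
    rw [le_div_iff₀ (by positivity)] at h2
    linarith
  set T : ℕ := 5 + g with hT
  obtain ⟨B, hB1, hBT, hB⟩ := exists_B g K T hτ
  have hlog : 0 < Real.log (1 + τ) := Real.log_pos (by linarith)
  have hlogB : 0 ≤ Real.log B := Real.log_nonneg hB1
  set η : ℝ := Real.log (1 + τ) / (Real.log B + 1) with hη
  have hη0 : 0 < η := by positivity
  have hηB : η * Real.log B ≤ Real.log (1 + τ) := by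
    rw [hη, div_mul_eq_mul_div, div_le_iff₀ (by positivity)]
    nlinarith
  obtain ⟨δ, hδ, n₀, hn₀⟩ := few_classes' hη0
  refine ⟨δ, hδ, n₀, fun n hn A H hA hH hind => ?_⟩
  set a : (Fin n → G) → ℚ := fun x => if x ∈ A then 1 else 0 with ha
  have hHL : H ≤ Line a := by
    intro σ hσ
    rw [mem_Line]
    refine ⟨1, one_ne_zero, fun x => ?_⟩
    rw [one_mul]
    have e1 : x ∘ σ ∈ A ↔ x ∈ A := by
      constructor
      · intro hx
        have h2 := hH _ (H.inv_mem hσ) _ hx
        have h3 : (fun i => (x ∘ σ) (σ⁻¹ i)) = x := by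
          funext i
          simp
        rwa [h3] at h2
      · intro hx
        exact hH σ hσ x hx
    simp only [ha, e1]
  have hidx : (Line a).index ≤ H.index := Nat.le_of_dvd
    (Nat.pos_of_ne_zero Subgroup.FiniteIndex.index_ne_zero) (Subgroup.index_dvd_of_le hHL)
  have hcls := hn₀ n hn (Fintype.card (Quotient (cls (Line a)))) (by
    refine le_trans ?_ hind
    exact_mod_cast (card_cls (Line a)).trans hidx)
  -- the classes
  let cl : Fin n → Quotient (cls (Line a)) := fun i => Quotient.mk _ i
  have hcl : ∀ p i, cl p = cl i ↔ rel (Line a) p i := fun p i => Quotient.eq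
  have hswap : ∀ y, T < Fintype.card {i // cl i = y} →
      ∀ i ∈ (univ.filter fun i => cl i = y), ∀ j ∈ (univ.filter fun i => cl i = y), ∀ x ∈ A,
        x ∘ swap i j ∈ A := by
    intro y hy i hi j hj x hx
    rw [Finset.mem_filter] at hi hj
    have hi' : rel (Line a) y.out i := by
      rw [← hcl, hi.2]
      exact Quotient.out_eq y
    have hj' : rel (Line a) y.out j := by
      rw [← hcl, hj.2]
      exact Quotient.out_eq y
    have hset : (univ.filter fun q => rel (Line a) y.out q) = univ.filter fun i => cl i = y := by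
      ext q
      rw [Finset.mem_filter, Finset.mem_filter, ← hcl]
      have : cl y.out = y := Quotient.out_eq y
      rw [this]
      simp [eq_comm]
    have hc : (univ.filter fun q => rel (Line a) y.out q).card = Fintype.card {i // cl i = y} := by
      rw [hset, Fintype.card_subtype]
    have h2 : swap i j ∈ Exact a :=
      swap_mem_exact (by rw [hc]; omega) (by rw [hc]; omega) hi' hj'
    have h3 := h2 x
    simp only [ha] at h3
    by_contra hcon
    rw [if_neg hcon, if_pos hx] at h3
    exact zero_ne_one h3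
  let S : ∀ y : Quotient (cls (Line a)), Finset ({i // cl i = y} → G) := fun y =>
    if T < Fintype.card {i // cl i = y} then few {i // cl i = y} G K h else univ
  have hScard : ∀ y, ((S y).card : ℝ) ≤ B * ((h : ℝ) * (1 + τ)) ^ Fintype.card {i // cl i = y} := by
    intro y
    set m := Fintype.card {i // cl i = y} with hm
    have hc1 : (1 : ℝ) ≤ (h : ℝ) * (1 + τ) := by nlinarith
    by_cases hy : T < m
    · have e1 : S y = few {i // cl i = y} G K h := if_pos hy
      rw [e1]
      have h2 := card_few_le (G := G) (P := {i // cl i = y}) (K := K) (h := h) (by omega) h1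
      rw [← hm, ← hg] at h2
      have h3 : ((few {i // cl i = y} G K h).card : ℝ) ≤
          2 ^ g * (((m : ℝ) * g) ^ (g * K) * (h : ℝ) ^ m) := by exact_mod_cast h2
      refine h3.trans ?_
      rw [← mul_assoc]
      calc (2 : ℝ) ^ g * ((m : ℝ) * g) ^ (g * K) * (h : ℝ) ^ m ≤ B * (1 + τ) ^ m * (h : ℝ) ^ m :=
            mul_le_mul_of_nonneg_right (hB m) (by positivity)
        _ = B * ((h : ℝ) * (1 + τ)) ^ m := by rw [mul_pow]; ring
    · have e1 : S y = univ := if_neg hy
      rw [e1, Finset.card_univ, Fintype.card_fun, ← hm, ← hg]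
      have hg1 : 1 ≤ g := Fintype.card_pos
      have h2 : ((g ^ m : ℕ) : ℝ) ≤ (g : ℝ) ^ T := by
        exact_mod_cast Nat.pow_le_pow_right hg1 (by omega)
      calc ((g ^ m : ℕ) : ℝ) ≤ B := h2.trans hBT
        _ = B * 1 := (mul_one B).symm
        _ ≤ B * ((h : ℝ) * (1 + τ)) ^ m :=
          mul_le_mul_of_nonneg_left (one_le_pow₀ hc1) (by linarith)
  have hle : A.card ≤ (Fintype.piFinset S).card := by
    apply Finset.card_le_card_of_injOn (fun u y i => u i.1)
    · intro u hu
      rw [Finset.mem_coe, Fintype.mem_piFinset]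
      intro y
      by_cases hy : T < Fintype.card {i // cl i = y}
      · have e1 : S y = few {i // cl i = y} G K h := if_pos hy
        rw [e1, mem_few]
        obtain ⟨V, hV, hVK⟩ := hK n A (univ.filter fun i => cl i = y) hA (hswap y hy) u hu
        refine ⟨V, hV, fun v hv => lt_of_le_of_lt ?_ (hVK v hv)⟩
        apply Finset.card_le_card_of_injOn (fun i => i.1)
        · intro i hi
          have h2 := (Finset.mem_filter.1 (Finset.mem_coe.1 hi)).2
          rw [Finset.mem_coe, Finset.mem_filter, Finset.mem_filter]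
          exact ⟨⟨mem_univ _, i.2⟩, h2⟩
        · intro i _ j _ hij
          exact Subtype.ext hij
      · have e1 : S y = univ := if_neg hy
        rw [e1]
        exact mem_univ _
    · intro u _ u' _ huu
      funext i
      exact congrFun (congrFun huu (cl i)) ⟨i, rfl⟩
  have hsum : ∑ y, Fintype.card {i // cl i = y} = n := by
    rw [← Fintype.card_sigma, Fintype.card_congr (Equiv.sigmaFiberEquiv cl), Fintype.card_fin]
  have hprod : (A.card : ℝ) ≤ B ^ Fintype.card (Quotient (cls (Line a))) *
      ((h : ℝ) * (1 + τ)) ^ n := by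
    calc (A.card : ℝ) ≤ ((Fintype.piFinset S).card : ℝ) := by exact_mod_cast hle
      _ = ∏ y, ((S y).card : ℝ) := by rw [Fintype.card_piFinset]; push_cast; rfl
      _ ≤ ∏ y, B * ((h : ℝ) * (1 + τ)) ^ Fintype.card {i // cl i = y} :=
        Finset.prod_le_prod (fun y _ => Nat.cast_nonneg _) (fun y _ => hScard y)
      _ = _ := by
        rw [Finset.prod_mul_distrib, Finset.prod_const, Finset.card_univ,
          Finset.prod_pow_eq_pow_sum, hsum]
  have hBpow : B ^ Fintype.card (Quotient (cls (Line a))) ≤ (1 + τ) ^ n := by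
    have hB0 : 0 < B := by linarith
    rw [← Real.exp_log (pow_pos hB0 _), ← Real.exp_log (show 0 < (1 + τ) ^ n by positivity),
      Real.exp_le_exp, Real.log_pow, Real.log_pow]
    calc (Fintype.card (Quotient (cls (Line a))) : ℝ) * Real.log B ≤ (η * n) * Real.log B :=
          mul_le_mul_of_nonneg_right hcls hlogB
      _ = n * (η * Real.log B) := by ring
      _ ≤ n * Real.log (1 + τ) := mul_le_mul_of_nonneg_left hηB (Nat.cast_nonneg _)
  calc (A.card : ℝ) ≤ (1 + τ) ^ n * ((h : ℝ) * (1 + τ)) ^ n :=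
        hprod.trans (mul_le_mul_of_nonneg_right hBpow (by positivity))
    _ = ((h : ℝ) * ((1 + τ) * (1 + τ))) ^ n := by rw [← mul_pow]; ring
    _ ≤ ((h : ℝ) + ε) ^ n := by
      apply pow_le_pow_left₀ (by positivity)
      have h2 : (1 + τ) * (1 + τ) ≤ 1 + 3 * τ := by nlinarith
      calc (h : ℝ) * ((1 + τ) * (1 + τ)) ≤ h * (1 + 3 * τ) :=
            mul_le_mul_of_nonneg_left h2 (by linarith)
        _ = h + h * (3 * τ) := by ring
        _ ≤ h + ε := by linarith

end Pool.Agent.TH197.SymAP
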