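import Pool.Agent.TH197.SymAP.Gordan
import Pool.Agent.TH197.SymAP.Basic

/-!
# Upper bounds for sets without balanced weights
-/

set_option autoImplicit false
set_option linter.unusedSectionVars false

namespace Pool.Agent.TH197.SymAP

open Finset Equiv

variable {G : Type} [AddCommGroup G] [Fintype G] [DecidableEq G]

/-- the dual certificate of an unbalanced set -/
theorem exists_dual (k : ℕ) (hk : 1 ≤ k) (S : Finset G) (hS : ¬ Balanced k S) :
    ∃ u : Fin k → G → ℚ, (∀ s, ∑ j, u j s = 0) ∧
      ∀ a y : G, y ≠ 0 → (∀ i : ℕ, i < k → a + i • y ∈ S) →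
        0 < ∑ j : Fin k, u j (a + (j : ℕ) • y) := by
  classical
  set P : Finset (G × G) := univ.filter (fun q => q.2 ≠ 0 ∧ ∀ i : ℕ, i < k → q.1 + i • q.2 ∈ S)
    with hP
  let vec : G × G → (Fin k × G → ℚ) := fun q => ∑ j : Fin k,
    (Pi.single (j, q.1 + (j : ℕ) • q.2) (1 : ℚ) - Pi.single (j, q.1) (1 : ℚ))
  have hvec : ∀ q (j : Fin k) (s : G), vec q (j, s) =
      (if q.1 + (j : ℕ) • q.2 = s then 1 else 0) - (if q.1 = s then 1 else 0) := by
    intro q j s
    simp only [vec, Finset.sum_apply, Pi.sub_apply]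
    rw [Finset.sum_eq_single j]
    · simp only [Pi.single_apply, Prod.mk.injEq, true_and]
      congr 1
      · simp only [eq_comm]
      · simp only [eq_comm]
    · intro j' _ hj'
      simp only [Pi.single_apply, Prod.mk.injEq]
      rw [if_neg (fun h => hj' h.1.symm), if_neg (fun h => hj' h.1.symm)]
      ring
    · intro h; exact absurd (Finset.mem_univ _) h
  rcases gordan (k := ℚ) P (Fin k × G → ℚ) vec with ⟨φ, hφ⟩ | ⟨l, hl0, ⟨q₁, hq₁, hq₁'⟩, hl⟩
  · have hk0 : 0 < k := hk
    set z : Fin k → G → ℚ := fun j s => φ (Pi.single (j, s) 1) with hz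
    refine ⟨fun j s => z j s - (if j = ⟨0, hk0⟩ then ∑ j', z j' s else 0), ?_, ?_⟩
    · intro s
      rw [Finset.sum_sub_distrib, Finset.sum_ite_eq', if_pos (Finset.mem_univ _), sub_self]
    · intro a y hy hAP
      have h1 := hφ (a, y) (by
        rw [hP, Finset.mem_filter]
        exact ⟨Finset.mem_univ _, hy, hAP⟩)
      have h2 : φ (vec (a, y)) = ∑ j : Fin k, (z j (a + (j : ℕ) • y) - z j a) := by
        simp only [vec, map_sum, map_sub, hz]
      rw [h2, Finset.sum_sub_distrib] at h1
      have h3 : ∑ j : Fin k, (z j (a + (j : ℕ) • y) -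
          (if j = ⟨0, hk0⟩ then ∑ j', z j' (a + (j : ℕ) • y) else 0)) =
          ∑ j : Fin k, z j (a + (j : ℕ) • y) - ∑ j : Fin k, z j a := by
        rw [Finset.sum_sub_distrib]
        congr 1
        rw [Finset.sum_ite_eq', if_pos (Finset.mem_univ _)]
        simp
      rw [h3]
      exact h1
  · exfalso
    apply hS
    set κ : G × G → ℚ := fun q => if q ∈ P then l q else 0 with hκ
    have hκ0 : ∀ q, 0 ≤ κ q := by
      intro q
      simp only [hκ]
      split_ifs with hq
      · exact hl0 q hq
      · exact le_refl _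
    obtain ⟨D, hD, hn⟩ := clear κ hκ0
    obtain ⟨w, hw⟩ := hn D dvd_rfl
    have hDQ : (D : ℚ) ≠ 0 := by exact_mod_cast hD.ne'
    refine ⟨w, ⟨q₁, ?_⟩, ?_, ?_⟩
    · intro h0
      have h1 := hw q₁
      rw [h0] at h1
      simp only [hκ, if_pos hq₁] at h1
      push_cast at h1
      exact hq₁' ((mul_eq_zero.1 h1.symm).resolve_left hDQ)
    · intro q hq
      by_contra hcon
      apply hq
      have h1 := hw q
      have h2 : q ∉ P := by
        intro hqP
        rw [hP, Finset.mem_filter] at hqP
        exact hcon hqP.2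
      simp only [hκ, if_neg h2, mul_zero] at h1
      exact_mod_cast h1
    · intro i hi s
      have h1 := congrFun hl (⟨i, hi⟩, s)
      rw [Finset.sum_apply] at h1
      simp only [Pi.smul_apply, hvec, smul_eq_mul, Pi.zero_apply] at h1
      have h2 : ∑ q : G × G, κ q * ((if q.1 + i • q.2 = s then 1 else 0) -
          (if q.1 = s then 1 else 0)) = 0 := by
        refine Eq.trans ?_ h1
        simp only [hκ, ite_mul, zero_mul]
        rw [Finset.sum_ite_mem, Finset.univ_inter]
      have h3 : ∑ q : G × G, (w q : ℚ) * ((if q.1 + i • q.2 = s then 1 else 0) -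
          (if q.1 = s then 1 else 0)) = 0 := by
        rw [Finset.sum_congr rfl (fun q _ => by rw [hw q, mul_assoc]), ← Finset.mul_sum, h2,
          mul_zero]
      have h4 : (∑ q : G × G, if q.1 + i • q.2 = s then (w q : ℚ) else 0) -
          (∑ q : G × G, if q.1 = s then (w q : ℚ) else 0) = 0 := by
        refine Eq.trans ?_ h3
        rw [← Finset.sum_sub_distrib]
        apply Finset.sum_congr rfl
        intro q _
        split_ifs <;> simp
      have h5 := sub_eq_zero.1 h4
      exact_mod_cast h5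

lemma smul_inj {k : ℕ} (htor : ∀ i : ℕ, 0 < i → i < k → ∀ g : G, i • g = 0 → g = 0)
    {i j : ℕ} (hi : i < k) (hj : j < k) (hij : i ≠ j) {d : G} (h : i • d = j • d) : d = 0 := by
  rcases Nat.lt_or_gt_of_ne hij with h1 | h1
  · apply htor (j - i) (by omega) (by omega)
    rw [sub_nsmul _ h1.le, h, ← sub_eq_add_neg, sub_self]
  · apply htor (i - j) (by omega) (by omega)
    rw [sub_nsmul _ h1.le, h, ← sub_eq_add_neg, sub_self]

/-- A set without a balanced weight misses more than `|G| / (k - 1)^2` elements. -/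
theorem star_bound (k : ℕ) (hk : 3 ≤ k)
    (htor : ∀ i : ℕ, 0 < i → i < k → ∀ g : G, i • g = 0 → g = 0)
    (hG : 2 ≤ Fintype.card G) (S : Finset G) (hS : ¬ Balanced k S) :
    Fintype.card G < (k - 1) ^ 2 * (Sᶜ).card := by
  classical
  obtain ⟨u, hu0, hu1⟩ := exists_dual k (by omega) S hS
  obtain ⟨K, rfl⟩ : ∃ K, k = K + 1 := ⟨k - 1, by omega⟩
  rw [Nat.add_sub_cancel]
  rcases S.eq_empty_or_nonempty with rfl | hSne
  · rw [Finset.compl_empty, Finset.card_univ]
    have : 2 ^ 2 ≤ K ^ 2 := Nat.pow_le_pow_left (by omega) 2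
    nlinarith
  have hScard : (0 : ℚ) < S.card := by exact_mod_cast Finset.card_pos.2 hSne
  set c : Fin (K + 1) → ℚ := fun j => (∑ s ∈ S, u j s) / S.card with hc
  set v : Fin (K + 1) → G → ℚ := fun j x => if x ∈ S then u j x - c j else 0 with hv
  have hcsum : ∑ j, c j = 0 := by
    simp only [hc]
    rw [← Finset.sum_div, Finset.sum_comm, Finset.sum_eq_zero (fun s _ => hu0 s), zero_div]
  have hv1 : ∀ x, ∑ j, v j x = 0 := by
    intro x
    by_cases hx : x ∈ S
    · simp only [hv, if_pos hx]
      rw [Finset.sum_sub_distrib, hu0, hcsum, sub_zero]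
    · simp only [hv, if_neg hx, Finset.sum_const_zero]
  have hv2 : ∀ j, ∑ x, v j x = 0 := by
    intro j
    simp only [hv]
    rw [Finset.sum_ite_mem, Finset.univ_inter, Finset.sum_sub_distrib, Finset.sum_const,
      nsmul_eq_mul]
    simp only [hc]
    field_simp
    ring
  have hv3 : ∀ a y : G, y ≠ 0 → (∀ i : ℕ, i < K + 1 → a + i • y ∈ S) →
      0 < ∑ j : Fin (K + 1), v j (a + (j : ℕ) • y) := by
    intro a y hy hAP
    have h1 := hu1 a y hy hAP
    have h2 : ∑ j : Fin (K + 1), v j (a + (j : ℕ) • y) =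
        ∑ j : Fin (K + 1), u j (a + (j : ℕ) • y) := by
      simp only [hv]
      rw [Finset.sum_congr rfl (fun (j : Fin (K + 1)) _ => if_pos (hAP (j : ℕ) j.2)),
        Finset.sum_sub_distrib, hcsum, sub_zero]
    rw [h2]
    exact h1
  have hv4 : ∀ j x, x ∉ S → v j x = 0 := by
    intro j x hx
    simp only [hv, if_neg hx]
  -- the minimum
  obtain ⟨⟨j₀, s₀⟩, hjs, hmin⟩ := Finset.exists_min_image
    ((univ : Finset (Fin (K + 1))) ×ˢ S) (fun q => v q.1 q.2)
    (Finset.univ_nonempty.product hSne)
  have hs₀ : s₀ ∈ S := (Finset.mem_product.1 hjs).2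
  set U : ℚ := - v j₀ s₀ with hU
  have hU0 : 0 ≤ U := by
    by_contra hlt
    push Not at hlt
    have h1 : 0 < ∑ x, v j₀ x := by
      apply Finset.sum_pos'
      · intro x _
        by_cases hx : x ∈ S
        · have h2 : v j₀ s₀ ≤ v j₀ x :=
            hmin (j₀, x) (Finset.mem_product.2 ⟨Finset.mem_univ _, hx⟩)
          linarith
        · rw [hv4 j₀ x hx]
      · exact ⟨s₀, Finset.mem_univ _, by linarith⟩
    rw [hv2] at h1
    exact lt_irrefl _ h1
  have hlow : ∀ j x, -U ≤ v j x := by
    intro j x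
    by_cases hx : x ∈ S
    · have h2 : v j₀ s₀ ≤ v j x :=
        hmin (j, x) (Finset.mem_product.2 ⟨Finset.mem_univ _, hx⟩)
      linarith
    · rw [hv4 j x hx]
      linarith
  set term : Fin (K + 1) → G → G := fun i y => (s₀ - (j₀ : ℕ) • y) + (i : ℕ) • y with hterm
  have hterm0 : ∀ y, term j₀ y = s₀ := by
    intro y
    simp only [hterm]
    abel
  have hbij : ∀ i, i ≠ j₀ → Function.Bijective (term i) := by
    intro i hi
    rw [← Finite.injective_iff_bijective]
    intro y y' hyy
    simp only [hterm] at hyy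
    have h1 : (i : ℕ) • (y - y') = (j₀ : ℕ) • (y - y') := by
      rw [nsmul_sub, nsmul_sub]
      have : (i : ℕ) • y - (i : ℕ) • y' - ((j₀ : ℕ) • y - (j₀ : ℕ) • y') =
          ((s₀ - (j₀ : ℕ) • y) + (i : ℕ) • y) - ((s₀ - (j₀ : ℕ) • y') + (i : ℕ) • y') := by
        abel
      rw [hyy, sub_self] at this
      exact sub_eq_zero.1 this
    have h2 := smul_inj htor i.2 j₀.2 (fun h => hi (Fin.ext h)) h1
    exact sub_eq_zero.1 h2
  set T : G → ℚ := fun y => ∑ i, v i (term i y) with hT
  have hTsum : ∑ y, T y = - (Fintype.card G : ℚ) * U := by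
    simp only [hT]
    rw [Finset.sum_comm]
    have h1 : ∀ i, ∑ y, v i (term i y) = if i = j₀ then - (Fintype.card G : ℚ) * U else 0 := by
      intro i
      split_ifs with h
      · subst h
        rw [Finset.sum_congr rfl (fun y _ => by rw [hterm0]), Finset.sum_const, Finset.card_univ,
          nsmul_eq_mul, hU]
        ring
      · rw [(hbij i h).sum_comp (fun x => v i x)]
        exact hv2 i
    rw [Finset.sum_congr rfl (fun i _ => h1 i), Finset.sum_ite_eq', if_pos (Finset.mem_univ _)]
  set Good : Finset G := univ.filter (fun y => y ≠ 0 ∧ ∀ i, term i y ∈ S) with hGood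
  set Bad : Finset G := univ.filter (fun y => y ≠ 0 ∧ ∃ i, term i y ∉ S) with hBad
  have hsplit : ∀ F : G → ℚ, ∑ y, F y = F 0 + (∑ y ∈ Good, F y + ∑ y ∈ Bad, F y) := by
    intro F
    rw [← Finset.sum_union]
    · have h1 : Good ∪ Bad = univ.erase (0 : G) := by
        ext y
        simp only [hGood, hBad, Finset.mem_union, Finset.mem_filter, Finset.mem_univ, true_and,
          Finset.mem_erase, and_true]
        constructor
        · rintro (h | h)
          · exact h.1
          · exact h.1
        · intro hy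
          by_cases h : ∀ i, term i y ∈ S
          · exact Or.inl ⟨hy, h⟩
          · push Not at h
            exact Or.inr ⟨hy, h⟩
      rw [h1, Finset.add_sum_erase _ _ (Finset.mem_univ _)]
    · rw [Finset.disjoint_left]
      intro y h1 h2
      rw [hGood, Finset.mem_filter] at h1
      rw [hBad, Finset.mem_filter] at h2
      obtain ⟨i, hi⟩ := h2.2.2
      exact hi (h1.2.2 i)
  have hT0 : T 0 = 0 := by
    simp only [hT, hterm, smul_zero, sub_zero, add_zero]
    exact hv1 s₀
  have hTgood : ∀ y ∈ Good, 0 < T y := by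
    intro y hy
    rw [hGood, Finset.mem_filter] at hy
    exact hv3 (s₀ - (j₀ : ℕ) • y) y hy.2.1 (fun i hi => hy.2.2 ⟨i, hi⟩)
  have hTbad : ∀ y ∈ Bad, - ((K : ℚ) * U) ≤ T y := by
    intro y hy
    rw [hBad, Finset.mem_filter] at hy
    obtain ⟨i₁, hi₁⟩ := hy.2.2
    simp only [hT]
    rw [← Finset.add_sum_erase _ _ (Finset.mem_univ i₁), hv4 i₁ _ hi₁, zero_add]
    have h1 : ∑ _i ∈ univ.erase i₁, (-U) ≤ ∑ i ∈ univ.erase i₁, v i (term i y) :=
      Finset.sum_le_sum (fun i _ => hlow i _)
    rw [Finset.sum_const, Finset.card_erase_of_mem (Finset.mem_univ _), Finset.card_univ,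
      Fintype.card_fin, Nat.add_sub_cancel, nsmul_eq_mul] at h1
    linarith
  have hBadcard : Bad.card ≤ K * (Sᶜ).card := by
    have h1 : Bad ⊆ (univ.erase j₀).biUnion (fun i => univ.filter (fun y => term i y ∈ Sᶜ)) := by
      intro y hy
      rw [hBad, Finset.mem_filter] at hy
      obtain ⟨i, hi⟩ := hy.2.2
      rw [Finset.mem_biUnion]
      refine ⟨i, ?_, ?_⟩
      · rw [Finset.mem_erase]
        refine ⟨?_, Finset.mem_univ _⟩
        rintro rfl
        rw [hterm0] at hi
        exact hi hs₀
      · rw [Finset.mem_filter, Finset.mem_compl]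
        exact ⟨Finset.mem_univ _, hi⟩
    calc Bad.card ≤ _ := Finset.card_le_card h1
      _ ≤ ∑ i ∈ univ.erase j₀, (univ.filter (fun y => term i y ∈ Sᶜ)).card :=
        Finset.card_biUnion_le
      _ ≤ ∑ _i ∈ univ.erase j₀, (Sᶜ).card := by
        apply Finset.sum_le_sum
        intro i hi
        rw [Finset.mem_erase] at hi
        apply Finset.card_le_card_of_injOn (term i)
        · intro y hy
          rw [Finset.mem_coe, Finset.mem_filter] at hy
          exact hy.2
        · exact (hbij i hi.1).injective.injOn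
      _ = K * (Sᶜ).card := by
        rw [Finset.sum_const, Finset.card_erase_of_mem (Finset.mem_univ _), Finset.card_univ,
          Fintype.card_fin, Nat.add_sub_cancel, smul_eq_mul]
  have hGB : Good.card + Bad.card + 1 = Fintype.card G := by
    have h1 := hsplit (fun _ => 1)
    simp only [Finset.sum_const, Finset.card_univ, nsmul_eq_mul, mul_one] at h1
    have h2 : ((Fintype.card G : ℕ) : ℚ) = ((Good.card + Bad.card + 1 : ℕ) : ℚ) := by
      rw [h1]
      push_cast
      ring
    exact_mod_cast h2.symm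
  rcases Good.eq_empty_or_nonempty with hGe | hGne
  · rw [hGe, Finset.card_empty] at hGB
    have hm : 1 ≤ (Sᶜ).card := by
      by_contra hcon
      have : (Sᶜ).card = 0 := by omega
      rw [this] at hBadcard
      omega
    have hK2 : 2 ≤ K := by omega
    nlinarith [Nat.mul_le_mul hK2 (le_refl (K * (Sᶜ).card)), Nat.mul_le_mul hK2 hm]
  · have h1 : 0 < ∑ y ∈ Good, T y := Finset.sum_pos hTgood hGne
    have h2 : (Bad.card : ℚ) * (-((K : ℚ) * U)) ≤ ∑ y ∈ Bad, T y := by
      have := Finset.sum_le_sum hTbad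
      rwa [Finset.sum_const, nsmul_eq_mul] at this
    have h3 := hsplit T
    rw [hTsum, hT0] at h3
    have h4 : ((Fintype.card G : ℚ) - K * Bad.card) * U < 0 := by nlinarith
    have h5 : (Fintype.card G : ℚ) < K * Bad.card := by
      by_contra hcon
      push Not at hcon
      have : 0 ≤ ((Fintype.card G : ℚ) - K * Bad.card) * U :=
        mul_nonneg (by linarith) hU0
      linarith
    have h6 : Fintype.card G < K * Bad.card := by exact_mod_cast h5
    calc Fintype.card G < K * Bad.card := h6
      _ ≤ K * (K * (Sᶜ).card) := Nat.mul_le_mul_left _ hBadcard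
      _ = K ^ 2 * (Sᶜ).card := by ring

/-- for `k = 4` a set without a balanced weight misses at least `(|G| - 1) / 4` elements -/
theorem window_four (h2 : ∀ g : G, 2 • g = 0 → g = 0) (S : Finset G) (hS : ¬ Balanced 4 S) :
    Fintype.card G ≤ 4 * (Sᶜ).card + 1 := by
  classical
  obtain ⟨u, hu0, hu1⟩ := exists_dual 4 (by norm_num) S hS
  rcases S.eq_empty_or_nonempty with rfl | hSne
  · rw [Finset.compl_empty, Finset.card_univ]
    omega
  set f : G → ℚ := fun x => u 0 x + u 3 x with hf
  obtain ⟨s₀, hs₀, hmax⟩ := Finset.exists_max_image S f hSne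
  have hg : ∀ x, u 1 x + u 2 x = - f x := by
    intro x
    have := hu0 x
    rw [Fin.sum_univ_four] at this
    simp only [hf]
    linarith
  have hbad : ∀ y : G, y ≠ 0 → ¬ (s₀ + y ∈ S ∧ s₀ - y ∈ S ∧ s₀ + 2 • y ∈ S ∧ s₀ - 2 • y ∈ S) := by
    rintro y hy ⟨m1, m2, m3, m4⟩
    have hAP : ∀ a z b c d : G, z ≠ 0 → a ∈ S → a + z = b → b ∈ S → a + 2 • z = c → c ∈ S →
        a + 3 • z = d → d ∈ S → 0 < u 0 a + u 1 b + u 2 c + u 3 d := by
      intro a z b c d hz ha hb hbS hc hcS hd hdS
      have h1 := hu1 a z hz (by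
        intro i hi
        interval_cases i
        · simpa using ha
        · rw [one_smul, hb]; exact hbS
        · rw [hc]; exact hcS
        · rw [hd]; exact hdS)
      rw [Fin.sum_univ_four] at h1
      simp only [Fin.val_zero, Fin.val_one, zero_smul, one_smul, add_zero] at h1
      have e2 : ((2 : Fin 4) : ℕ) = 2 := rfl
      have e3 : ((3 : Fin 4) : ℕ) = 3 := rfl
      rw [e2, e3, hb, hc, hd] at h1
      exact h1
    have t1 := hAP (s₀ - y) y s₀ (s₀ + y) (s₀ + 2 • y) hy m2 (by abel) hs₀ (by abel) m1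
      (by abel) m3
    have t2 := hAP (s₀ + 2 • y) (-y) (s₀ + y) s₀ (s₀ - y) (neg_ne_zero.2 hy) m3 (by abel) m1
      (by abel) hs₀ (by abel) m2
    have t3 := hAP (s₀ + y) (-y) s₀ (s₀ - y) (s₀ - 2 • y) (neg_ne_zero.2 hy) m1 (by abel) hs₀
      (by abel) m2 (by abel) m4
    have t4 := hAP (s₀ - 2 • y) y (s₀ - y) s₀ (s₀ + y) hy m4 (by abel) m2 (by abel) hs₀
      (by abel) m1
    have g0 := hg s₀
    have g1 := hg (s₀ + y)
    have g2 := hg (s₀ - y)
    have a1 := hmax _ m3
    have a2 := hmax _ m4
    simp only [hf] at g0 g1 g2 a1 a2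
    linarith
  have hinj2 : Function.Injective (fun y : G => 2 • y) := by
    intro y y' hyy
    have h1 : 2 • (y - y') = 0 := by
      rw [nsmul_sub]
      exact sub_eq_zero.2 hyy
    exact sub_eq_zero.1 (h2 _ h1)
  have hcov : univ.erase (0 : G) ⊆ (univ.filter (fun y => s₀ + y ∈ Sᶜ)) ∪
      (univ.filter (fun y => s₀ - y ∈ Sᶜ)) ∪ ((univ.filter (fun y => s₀ + 2 • y ∈ Sᶜ)) ∪
      (univ.filter (fun y => s₀ - 2 • y ∈ Sᶜ))) := by
    intro y hy
    rw [Finset.mem_erase] at hy
    have h1 := hbad y hy.1
    simp only [Finset.mem_union, Finset.mem_filter, Finset.mem_univ, true_and, Finset.mem_compl]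
    tauto
  have hc1 : (univ.filter (fun y => s₀ + y ∈ Sᶜ)).card ≤ (Sᶜ).card := by
    apply Finset.card_le_card_of_injOn (fun y => s₀ + y)
    · intro y hy
      rw [Finset.mem_coe, Finset.mem_filter] at hy
      exact hy.2
    · intro y _ y' _ h
      simpa using h
  have hc2 : (univ.filter (fun y => s₀ - y ∈ Sᶜ)).card ≤ (Sᶜ).card := by
    apply Finset.card_le_card_of_injOn (fun y => s₀ - y)
    · intro y hy
      rw [Finset.mem_coe, Finset.mem_filter] at hy
      exact hy.2
    · intro y _ y' _ h
      simpa using h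
  have hc3 : (univ.filter (fun y => s₀ + 2 • y ∈ Sᶜ)).card ≤ (Sᶜ).card := by
    apply Finset.card_le_card_of_injOn (fun y => s₀ + 2 • y)
    · intro y hy
      rw [Finset.mem_coe, Finset.mem_filter] at hy
      exact hy.2
    · intro y _ y' _ h
      exact hinj2 (by simpa using h)
  have hc4 : (univ.filter (fun y => s₀ - 2 • y ∈ Sᶜ)).card ≤ (Sᶜ).card := by
    apply Finset.card_le_card_of_injOn (fun y => s₀ - 2 • y)
    · intro y hy
      rw [Finset.mem_coe, Finset.mem_filter] at hy
      exact hy.2
    · intro y _ y' _ h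
      exact hinj2 (by simpa using h)
  have h3 := Finset.card_le_card hcov
  rw [Finset.card_erase_of_mem (Finset.mem_univ _), Finset.card_univ] at h3
  have h4 := (h3.trans (Finset.card_union_le _ _)).trans
    (Nat.add_le_add (Finset.card_union_le _ _) (Finset.card_union_le _ _))
  omega

/-- all elements but one carry a balanced weight if there is no `i`-torsion for `i ≤ k` -/
theorem balanced_erase (k : ℕ) (htor : ∀ i : ℕ, 0 < i → i ≤ k → ∀ g : G, i • g = 0 → g = 0)
    (hG : 2 ≤ Fintype.card G) (b : G) : Balanced k (univ.erase b) := by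
  classical
  have hbij : ∀ i : ℕ, i < k → Function.Bijective (fun y : G => b + (i + 1) • y) := by
    intro i hi
    rw [← Finite.injective_iff_bijective]
    intro y y' hyy
    have h1 : (i + 1) • (y - y') = 0 := by
      rw [nsmul_sub]
      exact sub_eq_zero.2 (by simpa using hyy)
    exact sub_eq_zero.1 (htor (i + 1) (by omega) (by omega) _ h1)
  refine ⟨fun q => if q.1 = b + q.2 ∧ q.2 ≠ 0 then 1 else 0, ?_, ?_, ?_⟩
  · have : Nontrivial G := Fintype.one_lt_card_iff_nontrivial.1 (by omega)
    obtain ⟨g, hg⟩ := exists_ne (0 : G)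
    exact ⟨(b + g, g), by simp [hg]⟩
  · intro q hq
    have h1 : q.1 = b + q.2 ∧ q.2 ≠ 0 := by
      by_contra hcon
      apply hq
      simp only
      rw [if_neg hcon]
    refine ⟨h1.2, ?_⟩
    intro i hi
    rw [Finset.mem_erase]
    refine ⟨?_, Finset.mem_univ _⟩
    intro h
    rw [h1.1] at h
    have h2 : (i + 1) • q.2 = 0 := by
      have : b + q.2 + i • q.2 = b + (i + 1) • q.2 := by
        rw [add_smul, one_smul]
        abel
      rw [this] at h
      simpa using h
    exact h1.2 (htor (i + 1) (by omega) (by omega) _ h2)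
  · have key : ∀ i : ℕ, i < k → ∀ s : G, (∑ q : G × G, if q.1 + i • q.2 = s then
        (if q.1 = b + q.2 ∧ q.2 ≠ 0 then 1 else 0) else 0) = if s = b then 0 else 1 := by
      intro i hi s
      rw [← Finset.univ_product_univ, Finset.sum_product_right]
      have h1 : ∀ y : G, (∑ a : G, if (a, y).1 + i • (a, y).2 = s then
          (if (a, y).1 = b + (a, y).2 ∧ (a, y).2 ≠ 0 then 1 else 0) else 0) =
          if b + (i + 1) • y = s then (if y = 0 then 0 else 1) else 0 := by
        intro y
        rw [Finset.sum_eq_single (b + y)]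
        · have h2 : b + y + i • y = b + (i + 1) • y := by
            rw [add_smul, one_smul]
            abel
          simp only [h2, true_and]
          split_ifs <;> simp_all
        · intro a _ ha
          simp only
          split_ifs with h3 h4
          · exact absurd h4.1 ha
          · rfl
          · rfl
        · intro h; exact absurd (Finset.mem_univ _) h
      rw [Finset.sum_congr rfl (fun y _ => h1 y)]
      obtain ⟨y₀, hy₀⟩ := (hbij i hi).surjective s
      have hy₀' : b + (i + 1) • y₀ = s := hy₀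
      rw [Finset.sum_eq_single y₀]
      · rw [if_pos hy₀']
        by_cases h0 : y₀ = 0
        · rw [if_pos h0, if_pos]
          rw [← hy₀', h0]
          simp
        · rw [if_neg h0, if_neg]
          intro hs
          apply h0
          apply (hbij i hi).injective
          show b + (i + 1) • y₀ = b + (i + 1) • (0 : G)
          rw [hy₀', hs]
          simp
      · intro y _ hy
        rw [if_neg]
        intro h
        apply hy
        apply (hbij i hi).injective
        show b + (i + 1) • y = b + (i + 1) • y₀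
        rw [h, hy₀']
      · intro h; exact absurd (Finset.mem_univ _) h
    intro i hi s
    simp only
    rw [key i hi s]
    have h0 := key 0 (by omega) s
    simp only [zero_smul, add_zero] at h0
    rw [h0]

/-- for `k = 3` a set without a balanced weight misses at least `(|G| - 1) / 2` elements -/
theorem window_three (S : Finset G) (hS : ¬ Balanced 3 S) :
    Fintype.card G ≤ 2 * (Sᶜ).card + 1 := by
  classical
  obtain ⟨u, hu0, hu1⟩ := exists_dual 3 (by norm_num) S hS
  rcases S.eq_empty_or_nonempty with rfl | hSne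
  · rw [Finset.compl_empty, Finset.card_univ]
    omega
  set f : G → ℚ := fun x => u 0 x + u 2 x with hf
  obtain ⟨s₀, hs₀, hmax⟩ := Finset.exists_max_image S f hSne
  have hg : ∀ x, u 1 x = - f x := by
    intro x
    have := hu0 x
    rw [Fin.sum_univ_three] at this
    simp only [hf]
    linarith
  have hbad : ∀ y : G, y ≠ 0 → ¬ (s₀ + y ∈ S ∧ s₀ - y ∈ S) := by
    rintro y hy ⟨m1, m2⟩
    have hAP : ∀ a z b c : G, z ≠ 0 → a ∈ S → a + z = b → b ∈ S → a + 2 • z = c → c ∈ S →
        0 < u 0 a + u 1 b + u 2 c := by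
      intro a z b c hz ha hb hbS hc hcS
      have h1 := hu1 a z hz (by
        intro i hi
        interval_cases i
        · simpa using ha
        · rw [one_smul, hb]; exact hbS
        · rw [hc]; exact hcS)
      rw [Fin.sum_univ_three] at h1
      simp only [Fin.val_zero, Fin.val_one, zero_smul, one_smul, add_zero] at h1
      have e2 : ((2 : Fin 3) : ℕ) = 2 := rfl
      rw [e2, hb, hc] at h1
      exact h1
    have t1 := hAP (s₀ - y) y s₀ (s₀ + y) hy m2 (by abel) hs₀ (by abel) m1
    have t2 := hAP (s₀ + y) (-y) s₀ (s₀ - y) (neg_ne_zero.2 hy) m1 (by abel) hs₀ (by abel) m2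
    have g0 := hg s₀
    have a1 := hmax _ m1
    have a2 := hmax _ m2
    simp only [hf] at g0 a1 a2
    linarith
  have hcov : univ.erase (0 : G) ⊆ (univ.filter (fun y => s₀ + y ∈ Sᶜ)) ∪
      (univ.filter (fun y => s₀ - y ∈ Sᶜ)) := by
    intro y hy
    rw [Finset.mem_erase] at hy
    have h1 := hbad y hy.1
    simp only [Finset.mem_union, Finset.mem_filter, Finset.mem_univ, true_and, Finset.mem_compl]
    tauto
  have hc1 : (univ.filter (fun y => s₀ + y ∈ Sᶜ)).card ≤ (Sᶜ).card := by
    apply Finset.card_le_card_of_injOn (fun y => s₀ + y)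
    · intro y hy
      rw [Finset.mem_coe, Finset.mem_filter] at hy
      exact hy.2
    · intro y _ y' _ h
      simpa using h
  have hc2 : (univ.filter (fun y => s₀ - y ∈ Sᶜ)).card ≤ (Sᶜ).card := by
    apply Finset.card_le_card_of_injOn (fun y => s₀ - y)
    · intro y hy
      rw [Finset.mem_coe, Finset.mem_filter] at hy
      exact hy.2
    · intro y _ y' _ h
      simpa using h
  have h3 := Finset.card_le_card hcov
  rw [Finset.card_erase_of_mem (Finset.mem_univ _), Finset.card_univ] at h3
  have h4 := h3.trans (Finset.card_union_le _ _)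
  omega

/-- a set that contains a full orbit `x, x + y, …, x + (p - 1) y`, `p y = 0`, carries a balanced
weight -/
theorem balanced_of_line (k p : ℕ) (hp : 0 < p) (S : Finset G) (x y : G) (hy : y ≠ 0)
    (hpy : p • y = 0) (hS : ∀ i : ℕ, i < p → x + i • y ∈ S) : Balanced k S := by
  classical
  have hmod : ∀ i : ℕ, i • y = (i % p) • y := by
    intro i
    conv_lhs => rw [← Nat.div_add_mod i p, add_smul, mul_comm, mul_smul, hpy, smul_zero, zero_add]
  have hall : ∀ i : ℕ, x + i • y ∈ S := by
    intro i
    rw [hmod]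
    exact hS _ (Nat.mod_lt _ hp)
  refine ⟨fun q => if q.2 = y ∧ ∃ i : ℕ, q.1 = x + i • y then 1 else 0, ⟨(x, y), ?_⟩, ?_, ?_⟩
  · show (if y = y ∧ ∃ i : ℕ, x = x + i • y then 1 else 0) ≠ 0
    rw [if_pos ⟨rfl, 0, by simp⟩]
    exact one_ne_zero
  · intro q hq
    have h1 : q.2 = y ∧ ∃ i : ℕ, q.1 = x + i • y := by
      by_contra hcon
      apply hq
      simp only
      rw [if_neg hcon]
    obtain ⟨h2, i, h3⟩ := h1
    refine ⟨h2 ▸ hy, ?_⟩
    intro j _
    rw [h2, h3, add_assoc, ← add_smul]
    exact hall _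
  · have key : ∀ j : ℕ, ∀ s : G, (∑ q : G × G, if q.1 + j • q.2 = s then
        (if q.2 = y ∧ ∃ i : ℕ, q.1 = x + i • y then 1 else 0) else 0) =
        if ∃ i : ℕ, s = x + i • y then 1 else 0 := by
      intro j s
      rw [Finset.sum_eq_single (s - j • y, y)]
      · simp only [sub_add_cancel, if_true, true_and]
        congr 1
        rw [eq_iff_iff]
        constructor
        · rintro ⟨i, hi⟩
          exact ⟨i + j, by rw [add_smul, ← add_assoc, ← hi, sub_add_cancel]⟩
        · rintro ⟨i, hi⟩
          refine ⟨i + (p - j % p), ?_⟩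
          have h1 : (p - j % p) • y + j • y = 0 := by
            rw [hmod j, ← add_smul, Nat.sub_add_cancel (Nat.mod_lt _ hp).le, hpy]
          have h2 : (p - j % p) • y = - (j • y) := eq_neg_of_add_eq_zero_left h1
          rw [hi, add_smul, h2]
          abel
      · rintro ⟨a, z⟩ _ hne
        simp only
        split_ifs with h1 h2
        · exfalso
          apply hne
          obtain ⟨rfl, _⟩ := h2
          rw [← h1]
          simp
        · rfl
        · rfl
      · intro h; exact absurd (Finset.mem_univ _) h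
    intro j _ s
    simp only
    rw [key j s]
    have h0 := key 0 s
    simp only [zero_smul, add_zero] at h0
    rw [h0]

end Pool.Agent.TH197.SymAP
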